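import Mathlib.NumberTheory.FermatPsp
import Mathlib.Tactic.Linarith
import Mathlib.Tactic.Positivity
import Mathlib.Tactic.Ring
import Mathlib.Tactic.Push

set_option autoImplicit false

namespace Pool.Agent.Helper95.Psp

/-- Pseudoprimality criterion: a proper product dividing `2^m-1` and congruent to 1 mod `m`. -/
theorem fermatPsp_of {a p m : ℕ} (ha : 1 < a) (hp : 1 < p) (hd : a * p ∣ 2 ^ m - 1)
    (hm : m ∣ a * p - 1) : Nat.FermatPsp (a * p) 2 := by
  have hn : 1 < a * p := by nlinarith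
  refine ⟨?_, ?_, hn⟩
  · obtain ⟨k, hk⟩ := hm
    unfold Nat.ProbablePrime
    rw [hk, pow_mul]
    refine hd.trans ?_
    have := Nat.sub_dvd_pow_sub_pow (2 ^ m) 1 k
    simpa using this
  · exact Nat.not_prime_mul (by omega) (by omega)

/-- there is a pseudoprime strictly between `x` and `2x` for every `x` in `[lo, hi)` -/
def Cov (lo hi : ℕ) : Prop :=
  ∀ x : ℕ, lo ≤ x → x < hi → ∃ n : ℕ, x < n ∧ n < 2 * x ∧ Nat.FermatPsp n 2

theorem Cov.trans {a b c : ℕ} (h1 : Cov a b) (h2 : Cov b c) : Cov a c := by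
  intro x hx hx'
  rcases lt_or_ge x b with h | h
  · exact h1 x hx h
  · exact h2 x h hx'

theorem Cov.single {lo n : ℕ} (h2 : n < 2 * lo) (hn : Nat.FermatPsp n 2) :
    Cov lo n := by
  intro x hx hx'
  exact ⟨n, hx', by omega, hn⟩

theorem Cov.mono_right {a b c : ℕ} (h1 : Cov a b) (h : c ≤ b) : Cov a c :=
  fun x hx hx' => h1 x hx (lt_of_lt_of_le hx' h)

/-- product of the entries of `l` selected by the binary digits of `z`, times `acc` -/
noncomputable def bp (l : List ℕ) : ℕ → ℕ → ℕ :=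
  @List.rec ℕ (fun _ => ℕ → ℕ → ℕ) (fun _ acc => acc)
    (fun a _ ih z acc => ih (z / 2) (@Nat.rec (fun _ => ℕ) acc (fun _ _ => a * acc) (z % 2))) l

noncomputable def split (l : List ℕ) : ℕ → (ℕ → ℕ → Bool) → Bool :=
  @List.rec ℕ (fun _ => ℕ → (ℕ → ℕ → Bool) → Bool) (fun _ _ => false)
    (fun a l ih z k =>
      @Nat.rec (fun _ => Bool) (ih (z / 2) k) (fun _ _ => k a (bp l (z / 2) 1)) (z % 2)) l

theorem split_sound (l : List ℕ) : ∀ (z : ℕ) (k : ℕ → ℕ → Bool), split l z k = true →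
    ∃ a p, k a p = true := by
  induction l with
  | nil => intro z k h; exact absurd h (by simp [split])
  | cons a l ih =>
    intro z k h
    have h' : (@Nat.rec (fun _ => Bool) (split l (z / 2) k) (fun _ _ => k a (bp l (z / 2) 1))
      (z % 2)) = true := h
    rcases Nat.mod_two_eq_zero_or_one z with hz | hz
    · rw [hz] at h'
      exact ih _ _ h'
    · rw [hz] at h'
      exact ⟨_, _, h'⟩

/-- check a chain of pseudoprimes given by masks, starting above `prev` and ending at or above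
`fin` -/
noncomputable def chk (m M fin : ℕ) (l : List ℕ) (zs : List ℕ) : ℕ → Bool :=
  @List.rec ℕ (fun _ => ℕ → Bool) (fun prev => Nat.ble fin prev)
   (fun z _ ih prev => split l z (fun a p =>
    Nat.blt 1 a && (Nat.blt 1 p && (Nat.blt (a*p) (2*prev) &&
      (Nat.beq (M % (a*p)) 0 && (Nat.beq ((a*p-1)%m) 0 && ih (a*p))))))) zs

theorem chk_sound (m M fin : ℕ) (l : List ℕ) (hM : M = 2 ^ m - 1) (zs : List ℕ) :
    ∀ prev : ℕ, chk m M fin l zs prev = true → Cov prev fin := by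
  induction zs with
  | nil =>
    intro prev h
    have h' : Nat.ble fin prev = true := h
    rw [Nat.ble_eq] at h'
    intro x hx hx'
    omega
  | cons z zs ih =>
    intro prev h
    obtain ⟨a, p, hk⟩ := split_sound l z _ (show split l z (fun a p =>
      Nat.blt 1 a && (Nat.blt 1 p && (Nat.blt (a*p) (2*prev) &&
      (Nat.beq (M % (a*p)) 0 && (Nat.beq ((a*p-1)%m) 0 && chk m M fin l zs (a*p)))))) = true
      from h)
    simp only [Bool.and_eq_true, Nat.blt_eq, Nat.beq_eq] at hk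
    obtain ⟨ha, hp, h2, h3, h4, h5⟩ := hk
    refine Cov.trans (Cov.single h2 (fermatPsp_of ha hp ?_ (Nat.dvd_of_mod_eq_zero h4)))
      (ih _ h5)
    rw [← hM]
    exact Nat.dvd_of_mod_eq_zero h3

/-- check for explicitly listed pseudoprimes `(a, p, m)` -/
noncomputable def chkS (fin : ℕ) (zs : List (ℕ × ℕ × ℕ)) : ℕ → Bool :=
  @List.rec (ℕ × ℕ × ℕ) (fun _ => ℕ → Bool) (fun prev => Nat.ble fin prev)
   (fun z _ ih prev =>
    Nat.blt 1 z.1 && (Nat.blt 1 z.2.1 && (Nat.blt (z.1*z.2.1) (2*prev) &&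
      (Nat.beq ((2 ^ z.2.2 - 1) % (z.1*z.2.1)) 0 &&
        (Nat.beq ((z.1*z.2.1-1)%z.2.2) 0 && ih (z.1*z.2.1)))))) zs

theorem chkS_sound (fin : ℕ) (zs : List (ℕ × ℕ × ℕ)) :
    ∀ prev : ℕ, chkS fin zs prev = true → Cov prev fin := by
  induction zs with
  | nil =>
    intro prev h
    have h' : Nat.ble fin prev = true := h
    rw [Nat.ble_eq] at h'
    intro x hx hx'
    omega
  | cons z zs ih =>
    intro prev h
    have hk : (Nat.blt 1 z.1 && (Nat.blt 1 z.2.1 && (Nat.blt (z.1*z.2.1) (2*prev) &&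
      (Nat.beq ((2 ^ z.2.2 - 1) % (z.1*z.2.1)) 0 &&
        (Nat.beq ((z.1*z.2.1-1)%z.2.2) 0 && chkS fin zs (z.1*z.2.1)))))) = true := h
    simp only [Bool.and_eq_true, Nat.blt_eq, Nat.beq_eq] at hk
    obtain ⟨ha, hp, h2, h3, h4, h5⟩ := hk
    exact Cov.trans (Cov.single h2 (fermatPsp_of ha hp (Nat.dvd_of_mod_eq_zero h3)
      (Nat.dvd_of_mod_eq_zero h4))) (ih _ h5)

/-- Pseudoprimes just below and just above `2^E`. -/
def Q (E : ℕ) : Prop :=
  (∃ n : ℕ, Nat.FermatPsp n 2 ∧ 3 * 2 ^ E < 4 * n ∧ n < 2 ^ E) ∧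
  (∃ n : ℕ, Nat.FermatPsp n 2 ∧ 2 ^ E < n ∧ 4 * n < 5 * 2 ^ E)

theorem cov_of_Q {E0 : ℕ} (h : ∀ E, E0 ≤ E → Q E) (x : ℕ) (hx : 2 ^ E0 ≤ x) :
    ∃ n : ℕ, x < n ∧ n < 2 * x ∧ Nat.FermatPsp n 2 := by
  have hx0 : x ≠ 0 := by
    have : 0 < 2 ^ E0 := by positivity
    omega
  set E := Nat.log 2 x with hE
  have h1 : 2 ^ E ≤ x := Nat.pow_log_le_self 2 hx0
  have h2 : x < 2 ^ (E + 1) := Nat.lt_pow_succ_log_self (by norm_num) x
  have hE0 : E0 ≤ E := by
    by_contra hc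
    push Not at hc
    have : 2 ^ (E + 1) ≤ 2 ^ E0 := Nat.pow_le_pow_right (by norm_num) hc
    omega
  obtain ⟨-, n1, hn1, h3, h4⟩ := h E hE0
  obtain ⟨⟨n2, hn2, h5, h6⟩, n3, hn3, h7, h8⟩ := h (E + 1) (by omega)
  rw [pow_succ] at h2 h5 h6 h7 h8
  by_cases hc1 : x < n1
  · exact ⟨n1, hc1, by omega, hn1⟩
  · by_cases hc2 : x < n2
    · exact ⟨n2, hc2, by omega, hn2⟩
    · exact ⟨n3, by omega, by omega, hn3⟩

end Pool.Agent.Helper95.Psp
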