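import Mathlib
import Pool.Agent.Helper95.PspBasic

set_option autoImplicit false

namespace Pool.Agent.Helper95.Psp

/-- the filler atom `(2^(11e)+1)/(2^e+1)` -/
def fl (e : ℕ) : ℕ := (2 ^ (11 * e) + 1) / (2 ^ e + 1)

theorem fl_mul (e : ℕ) : fl e * (2 ^ e + 1) = 2 ^ (11 * e) + 1 := by
  unfold fl
  apply Nat.div_mul_cancel
  have := Odd.nat_add_dvd_pow_add_pow (2 ^ e) 1 (n := 11) (by decide)
  rw [one_pow, ← pow_mul, mul_comm e 11] at this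
  exact this

theorem fl_pos (e : ℕ) : 0 < fl e := by
  rcases Nat.eq_zero_or_pos (fl e) with h | h
  · have := fl_mul e
    rw [h] at this
    simp at this
  · exact h

/-- `n` is within the factor `(1±t)^K` of `2^e` -/
def Nr (t : ℝ) (K e n : ℕ) : Prop :=
  (1 - t) ^ K * 2 ^ e ≤ (n : ℝ) ∧ (n : ℝ) ≤ (1 + t) ^ K * 2 ^ e

theorem Nr.mul {t : ℝ} (ht0 : 0 ≤ t) (ht1 : t ≤ 1) {K e n K' e' n' : ℕ} (h : Nr t K e n)
    (h' : Nr t K' e' n') : Nr t (K + K') (e + e') (n * n') := by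
  obtain ⟨h1, h2⟩ := h
  obtain ⟨h3, h4⟩ := h'
  have h1t : (0 : ℝ) ≤ 1 - t := by linarith
  constructor
  · push_cast
    calc (1 - t) ^ (K + K') * 2 ^ (e + e') = ((1 - t) ^ K * 2 ^ e) * ((1 - t) ^ K' * 2 ^ e') := by
          ring
      _ ≤ n * n' := by
          apply mul_le_mul h1 h3 (by positivity) (by positivity)
  · push_cast
    calc (n : ℝ) * n' ≤ ((1 + t) ^ K * 2 ^ e) * ((1 + t) ^ K' * 2 ^ e') := by
          apply mul_le_mul h2 h4 (by positivity) (by positivity)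
      _ = _ := by ring

theorem Nr.one {t : ℝ} (ht0 : 0 ≤ t) (ht1 : t ≤ 1) (K : ℕ) : Nr t K 0 1 := by
  constructor
  · simp only [pow_zero, mul_one, Nat.cast_one]
    exact pow_le_one₀ (by linarith) (by linarith)
  · simp only [pow_zero, mul_one, Nat.cast_one]
    exact one_le_pow₀ (by linarith)

theorem Nr.add {t : ℝ} (ht0 : 0 ≤ t) (ht1 : t ≤ 1) {K e n : ℕ} (h : Nr t K e n) (K' : ℕ)
    (hK : K ≤ K') : Nr t K' e n := by
  obtain ⟨d, rfl⟩ := Nat.exists_eq_add_of_le hK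
  have := h.mul ht0 ht1 (Nr.one ht0 ht1 d)
  simpa using this

theorem Nr.pow_add_one {q e : ℕ} (h : q ≤ e) : Nr ((1 / 2 : ℝ) ^ q) 1 e (2 ^ e + 1) := by
  have h0 : (1 / 2 : ℝ) ^ e ≤ (1 / 2 : ℝ) ^ q := pow_le_pow_of_le_one (by norm_num) (by norm_num) h
  have h1 : (1 / 2 : ℝ) ^ e * 2 ^ e = 1 := by
    rw [← mul_pow]; norm_num
  have h2 : (0 : ℝ) < 2 ^ e := by positivity
  have h3 : (0 : ℝ) < (1 / 2 : ℝ) ^ q := by positivity
  constructor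
  · push_cast
    rw [pow_one]
    nlinarith
  · push_cast
    rw [pow_one]
    nlinarith [mul_le_mul_of_nonneg_right h0 h2.le]

theorem fl_bounds (e : ℕ) : (1 - (1 / 2 : ℝ) ^ e) * 2 ^ (10 * e) ≤ (fl e : ℝ) ∧
    (fl e : ℝ) ≤ 2 ^ (10 * e) := by
  have h : (fl e : ℝ) * (2 ^ e + 1) = 2 ^ (11 * e) + 1 := by exact_mod_cast fl_mul e
  have hy : (1 : ℝ) ≤ 2 ^ e := one_le_pow₀ (by norm_num)
  have h1 : (1 / 2 : ℝ) ^ e * 2 ^ e = 1 := by
    rw [← mul_pow]; norm_num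
  have h11 : (2 : ℝ) ^ (11 * e) = (2 ^ e) ^ 11 := by rw [← pow_mul, mul_comm]
  have h10 : (2 : ℝ) ^ (10 * e) = (2 ^ e) ^ 10 := by rw [← pow_mul, mul_comm]
  set y : ℝ := 2 ^ e with hyd
  set z : ℝ := (1 / 2 : ℝ) ^ e with hzd
  rw [h11] at h
  rw [h10]
  have hy9 : (1 : ℝ) ≤ y ^ 9 := one_le_pow₀ hy
  have hy10 : (1 : ℝ) ≤ y ^ 10 := one_le_pow₀ hy
  have e1 : (1 - z) * y ^ 10 = y ^ 10 - y ^ 9 := by
    have : z * y ^ 10 = (z * y) * y ^ 9 := by ring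
    rw [sub_mul, this, h1]; ring
  constructor
  · rw [e1]
    have : (y ^ 10 - y ^ 9) * (y + 1) ≤ (fl e : ℝ) * (y + 1) := by
      rw [h]
      have : (y ^ 10 - y ^ 9) * (y + 1) = y ^ 11 - y ^ 9 := by ring
      rw [this]; linarith
    exact le_of_mul_le_mul_right this (by linarith)
  · have : (fl e : ℝ) * (y + 1) ≤ y ^ 10 * (y + 1) := by
      rw [h]
      have : y ^ 10 * (y + 1) = y ^ 11 + y ^ 10 := by ring
      rw [this]; linarith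
    exact le_of_mul_le_mul_right this (by linarith)

theorem Nr.fl {q e : ℕ} (h : q ≤ e) : Nr ((1 / 2 : ℝ) ^ q) 1 (10 * e) (fl e) := by
  obtain ⟨h1, h2⟩ := fl_bounds e
  have h0 : (1 / 2 : ℝ) ^ e ≤ (1 / 2 : ℝ) ^ q := pow_le_pow_of_le_one (by norm_num) (by norm_num) h
  have h3 : (0 : ℝ) < 2 ^ (10 * e) := by positivity
  have h4 : (0 : ℝ) < (1 / 2 : ℝ) ^ q := by positivity
  constructor
  · rw [pow_one]
    nlinarith [mul_le_mul_of_nonneg_right h0 h3.le]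
  · rw [pow_one]
    nlinarith

/-- product of `g i` over the binary digits of `z` below `L` -/
def bits (g : ℕ → ℕ) (z : ℕ) : ℕ → ℕ
  | 0 => 1
  | L + 1 => bits g z L * (if z.testBit L then g L else 1)

/-- sum of `w i` over the binary digits of `z` below `L` -/
def bsum (w : ℕ → ℕ) (z : ℕ) : ℕ → ℕ
  | 0 => 0
  | L + 1 => bsum w z L + (if z.testBit L then w L else 0)

theorem bits_dvd (g : ℕ → ℕ) (z L : ℕ) : bits g z L ∣ ∏ i ∈ Finset.range L, g i := by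
  induction L with
  | zero => simp [bits]
  | succ L ih =>
    rw [bits, Finset.prod_range_succ]
    apply mul_dvd_mul ih
    split_ifs
    · exact dvd_rfl
    · exact one_dvd _

theorem mod_two_pow_succ' (z L : ℕ) :
    z % 2 ^ (L + 1) = z % 2 ^ L + 2 ^ L * (if z.testBit L then 1 else 0) := by
  rw [Nat.mod_pow_succ, Nat.testBit_eq_decide_div_mod_eq]
  rcases Nat.mod_two_eq_zero_or_one (z / 2 ^ L) with h | h <;> simp [h]

theorem bits_Nr {t : ℝ} (ht0 : 0 ≤ t) (ht1 : t ≤ 1) (g : ℕ → ℕ) (s z L : ℕ)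
    (hg : ∀ i, i < L → Nr t 1 (s * 2 ^ i) (g i)) : Nr t L (s * (z % 2 ^ L)) (bits g z L) := by
  induction L with
  | zero => simpa [bits, Nat.mod_one] using Nr.one ht0 ht1 0
  | succ L ih =>
    have h1 := ih (fun i hi => hg i (by omega))
    rw [bits, mod_two_pow_succ', mul_add]
    apply Nr.mul ht0 ht1 h1
    cases h : z.testBit L
    · simpa using Nr.one ht0 ht1 1
    · simpa [h] using hg L (by omega)

theorem bits_modEq_one {m : ℕ} (g : ℕ → ℕ) (z L : ℕ) (hg : ∀ i, i < L → g i ≡ 1 [MOD m]) :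
    bits g z L ≡ 1 [MOD m] := by
  induction L with
  | zero => exact Nat.ModEq.refl _
  | succ L ih =>
    rw [bits]
    have h1 := ih (fun i hi => hg i (by omega))
    have h2 : (if z.testBit L then g L else 1) ≡ 1 [MOD m] := by
      split_ifs
      · exact hg L (by omega)
      · exact Nat.ModEq.refl _
    simpa using h1.mul h2

theorem bits_congr {m : ℕ} (g f : ℕ → ℕ) (z L : ℕ) (hg : ∀ i, i < L → g i ≡ f i [MOD m]) :
    bits g z L ≡ bits f z L [MOD m] := by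
  induction L with
  | zero => exact Nat.ModEq.refl _
  | succ L ih =>
    rw [bits, bits]
    have h1 := ih (fun i hi => hg i (by omega))
    have h2 : (if z.testBit L then g L else 1) ≡ (if z.testBit L then f L else 1) [MOD m] := by
      split_ifs
      · exact hg L (by omega)
      · exact Nat.ModEq.refl _
    exact h1.mul h2

theorem bits_lin {P κ : ℕ} (hP : 11 ∣ P) (g w : ℕ → ℕ) (z L : ℕ)
    (hg : ∀ i, i < L → g i ≡ 1 + P * (κ * w i) [MOD P * 11]) :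
    bits g z L ≡ 1 + P * (κ * bsum w z L) [MOD P * 11] := by
  induction L with
  | zero => simpa [bits, bsum] using Nat.ModEq.refl _
  | succ L ih =>
    rw [bits, bsum]
    have h1 := ih (fun i hi => hg i (by omega))
    cases h : z.testBit L
    · simpa using h1
    · simp only [if_true]
      refine (h1.mul (hg L (by omega))).trans ?_
      obtain ⟨p, hp⟩ := hP
      have : (1 + P * (κ * bsum w z L)) * (1 + P * (κ * w L)) =
        1 + P * (κ * (bsum w z L + w L)) + (P * 11) * (p * (κ * bsum w z L) * (κ * w L)) := by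
        rw [hp]; ring
      rw [this]
      exact (Nat.modEq_iff_dvd' (by omega)).mpr ⟨_, by
        rw [Nat.add_sub_cancel_left]⟩ |>.symm

theorem pow11_step {a q : ℤ} (hq : 11 ∣ q) (ha : 11 * q ∣ a - (1 + 5 * q)) :
    11 * (11 * q) ∣ a ^ 11 - (1 + 5 * (11 * q)) := by
  obtain ⟨p, rfl⟩ := hq
  obtain ⟨s, hs⟩ := ha
  have ha' : a = 1 + (11 * p) * (5 + 11 * s) := by linarith
  set v : ℤ := 5 + 11 * s with hv
  have h11 : a ^ 11 = 1 + 11 * ((11 * p) * v) + 55 * ((11 * p) * v) ^ 2 +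
      ((11 * p) * v) ^ 3 * (165 + 330 * ((11 * p) * v) + 462 * ((11 * p) * v) ^ 2
       + 462 * ((11 * p) * v) ^ 3 + 330 * ((11 * p) * v) ^ 4 + 165 * ((11 * p) * v) ^ 5
       + 55 * ((11 * p) * v) ^ 6 + 11 * ((11 * p) * v) ^ 7 + ((11 * p) * v) ^ 8) := by
    rw [ha']; ring
  generalize hG : (165 + 330 * ((11 * p) * v) + 462 * ((11 * p) * v) ^ 2
       + 462 * ((11 * p) * v) ^ 3 + 330 * ((11 * p) * v) ^ 4 + 165 * ((11 * p) * v) ^ 5
       + 55 * ((11 * p) * v) ^ 6 + 11 * ((11 * p) * v) ^ 7 + ((11 * p) * v) ^ 8) = G at h11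
  refine ⟨s + 5 * p * v ^ 2 + p ^ 2 * v ^ 3 * G, ?_⟩
  rw [h11, hv]; ring

/-- `2^(10*11^c) ≡ 1 + 5*11^(c+1) mod 11^(c+2)` -/
theorem two_pow_ten (c : ℕ) : (11 : ℤ) ^ (c + 2) ∣ 2 ^ (10 * 11 ^ c) - (1 + 5 * 11 ^ (c + 1)) := by
  induction c with
  | zero => norm_num
  | succ c ih =>
    have h := pow11_step (a := 2 ^ (10 * 11 ^ c)) (q := 11 ^ (c + 1))
      ⟨11 ^ c, by ring⟩ (by rw [← pow_succ']; exact ih)
    rw [← pow_mul] at h
    have e1 : (10 * 11 ^ c * 11 : ℕ) = 10 * 11 ^ (c + 1) := by ring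
    rw [e1] at h
    have e2 : (11 : ℤ) * (11 * 11 ^ (c + 1)) = 11 ^ (c + 1 + 2) := by ring
    have e3 : (11 : ℤ) * 11 ^ (c + 1) = 11 ^ (c + 1 + 1) := by ring
    rw [e2, e3] at h
    exact h

theorem two_pow_ten_mul (c f : ℕ) :
    (11 : ℤ) ^ (c + 2) ∣ 2 ^ (10 * 11 ^ c * f) - (1 + 5 * f * 11 ^ (c + 1)) := by
  induction f with
  | zero => simp
  | succ f ih =>
    obtain ⟨u, hu⟩ := ih
    obtain ⟨v, hv⟩ := two_pow_ten c
    have h1 : (2 : ℤ) ^ (10 * 11 ^ c * f) = 1 + 5 * f * 11 ^ (c + 1) + 11 ^ (c + 2) * u := by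
      linarith
    have h2 : (2 : ℤ) ^ (10 * 11 ^ c) = 1 + 5 * 11 ^ (c + 1) + 11 ^ (c + 2) * v := by linarith
    rw [Nat.mul_succ, pow_add (2 : ℤ), h1, h2]
    refine ⟨25 * f * 11 ^ c + v * (1 + 5 * f * 11 ^ (c + 1)) + u * (1 + 5 * 11 ^ (c + 1)) +
      11 ^ (c + 2) * u * v, ?_⟩
    push_cast
    ring

theorem two_pow_mod11 (c f : ℕ) : (11 : ℤ) ∣ 2 ^ (11 ^ c * f) - 2 ^ f := by
  have : ((2 : ZMod 11) ^ (11 ^ c * f)) = 2 ^ f := by
    rw [mul_comm, pow_mul]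
    have : Fact (Nat.Prime 11) := ⟨by norm_num⟩
    exact ZMod.pow_card_pow _
  have h2 : (((2 ^ (11 ^ c * f) - 2 ^ f : ℤ)) : ZMod 11) = 0 := by
    push_cast
    rw [this, sub_self]
  exact (ZMod.intCast_zmod_eq_zero_iff_dvd _ 11).mp h2

/-- residues of `2^(2^n)` modulo 11, as a function of `n mod 4` for `n ≥ 1`. -/
def h11 (n : ℕ) : ℕ := match n % 4 with
  | 0 => 9
  | 1 => 4
  | 2 => 5
  | _ => 3

theorem h11_spec (n : ℕ) : 2 ^ (2 ^ (n + 1)) % 11 = h11 (n + 1) := by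
  induction n with
  | zero => decide
  | succ n ih =>
    rw [pow_succ 2 (n + 1), pow_mul, Nat.pow_mod, ih]
    unfold h11
    have : (n + 1) % 4 < 4 := Nat.mod_lt _ (by norm_num)
    have h2 : (n + 1 + 1) % 4 = ((n + 1) % 4 + 1) % 4 := by omega
    rw [h2]
    interval_cases (n + 1) % 4 <;> rfl

theorem not_dvd_pow_add_one (n : ℕ) : ¬ 11 ∣ 2 ^ (2 ^ n) + 1 := by
  rcases n with _ | n
  · decide
  · intro h
    have h1 := h11_spec n
    have h2 : h11 (n + 1) = 9 ∨ h11 (n + 1) = 4 ∨ h11 (n + 1) = 5 ∨ h11 (n + 1) = 3 := by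
      unfold h11
      have : (n + 1) % 4 < 4 := Nat.mod_lt _ (by norm_num)
      interval_cases (n + 1) % 4 <;> simp
    omega

theorem coprime_aux (c n : ℕ) : IsCoprime ((2 : ℤ) ^ (11 ^ c * 2 ^ n) + 1) 11 := by
  have h := not_dvd_pow_add_one n
  have h' : ¬ (11 : ℤ) ∣ 2 ^ (11 ^ c * 2 ^ n) + 1 := by
    intro hd
    apply h
    have h1 := two_pow_mod11 c (2 ^ n)
    have h2 : (11 : ℤ) ∣ 2 ^ (2 ^ n) + 1 := by
      have := dvd_sub hd h1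
      have e : (2 : ℤ) ^ (11 ^ c * 2 ^ n) + 1 - (2 ^ (11 ^ c * 2 ^ n) - 2 ^ 2 ^ n) =
        2 ^ 2 ^ n + 1 := by ring
      rwa [e] at this
    exact_mod_cast h2
  have hp : Prime (11 : ℤ) := by norm_num
  exact ((Prime.coprime_iff_not_dvd hp).mpr h').symm

/-- first-order expansion of the filler atoms -/
theorem fl_expand (c n : ℕ) (τ : ℤ) (hτ : (11 : ℤ) ∣ τ * (2 ^ 2 ^ n + 1) - 5 * 2 ^ n * 2 ^ 2 ^ n) :
    (11 : ℤ) ^ (c + 2) ∣ (fl (11 ^ c * 2 ^ n) : ℤ) - (1 + 11 ^ (c + 1) * τ) := by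
  have h := fl_mul (11 ^ c * 2 ^ n)
  have hZ : (fl (11 ^ c * 2 ^ n) : ℤ) * (2 ^ (11 ^ c * 2 ^ n) + 1) =
      2 ^ (11 * (11 ^ c * 2 ^ n)) + 1 := by exact_mod_cast h
  have e1 : (2 : ℤ) ^ (11 * (11 ^ c * 2 ^ n)) =
      2 ^ (11 ^ c * 2 ^ n) * 2 ^ (10 * 11 ^ c * 2 ^ n) := by
    rw [← pow_add]; congr 1; ring
  rw [e1] at hZ
  have h10 := two_pow_ten_mul c (2 ^ n)
  have hy := two_pow_mod11 c (2 ^ n)
  have hcop := coprime_aux c n
  generalize (fl (11 ^ c * 2 ^ n) : ℤ) = F at *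
  generalize (2 : ℤ) ^ (10 * 11 ^ c * 2 ^ n) = Z at *
  generalize (2 : ℤ) ^ (11 ^ c * 2 ^ n) = y at *
  have hcop' : IsCoprime ((11 : ℤ) ^ (c + 2)) (y + 1) := (hcop.pow_right).symm
  refine hcop'.dvd_of_dvd_mul_right ?_
  obtain ⟨u, hu⟩ := h10
  obtain ⟨v, hv⟩ := hy
  obtain ⟨w, hw⟩ := hτ
  have hZ' : Z = 1 + 5 * ((2 ^ n : ℕ) : ℤ) * 11 ^ (c + 1) + 11 ^ (c + 2) * u := by linarith
  have hy' : y = 2 ^ 2 ^ n + 11 * v := by linarith
  push_cast at hZ'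
  have key : (F - (1 + 11 ^ (c + 1) * τ)) * (y + 1) =
      y * (Z - 1) - 11 ^ (c + 1) * (τ * (y + 1)) := by
    linear_combination hZ
  rw [key, hZ']
  have k2 : τ * (y + 1) = 5 * 2 ^ n * 2 ^ 2 ^ n + 11 * w + 11 * v * τ := by
    rw [hy']; linear_combination hw
  rw [k2]
  refine ⟨y * u + 5 * 2 ^ n * v - w - v * τ, ?_⟩
  rw [hy']; ring

theorem fl_modEq_one (c n : ℕ) : fl (11 ^ c * 2 ^ n) ≡ 1 [MOD 11 ^ (c + 1)] := by
  have h := fl_mul (11 ^ c * 2 ^ n)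
  have hZ : (fl (11 ^ c * 2 ^ n) : ℤ) * (2 ^ (11 ^ c * 2 ^ n) + 1) =
      2 ^ (11 * (11 ^ c * 2 ^ n)) + 1 := by exact_mod_cast h
  have e1 : (2 : ℤ) ^ (11 * (11 ^ c * 2 ^ n)) =
      2 ^ (11 ^ c * 2 ^ n) * 2 ^ (10 * 11 ^ c * 2 ^ n) := by
    rw [← pow_add]; congr 1; ring
  rw [e1] at hZ
  have h10 := two_pow_ten_mul c (2 ^ n)
  have hcop := coprime_aux c n
  rw [Nat.modEq_iff_dvd]
  push_cast
  generalize (fl (11 ^ c * 2 ^ n) : ℤ) = F at *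
  generalize (2 : ℤ) ^ (10 * 11 ^ c * 2 ^ n) = Z at *
  generalize (2 : ℤ) ^ (11 ^ c * 2 ^ n) = y at *
  have hcop' : IsCoprime ((11 : ℤ) ^ (c + 1)) (y + 1) := (hcop.pow_right).symm
  refine hcop'.dvd_of_dvd_mul_right ?_
  obtain ⟨u, hu⟩ := h10
  have hZ' : Z = 1 + 5 * ((2 ^ n : ℕ) : ℤ) * 11 ^ (c + 1) + 11 ^ (c + 2) * u := by linarith
  push_cast at hZ'
  have key : (1 - F) * (y + 1) = - (y * (Z - 1)) := by
    linear_combination -hZ
  rw [key, hZ']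
  exact ⟨-(y * (5 * 2 ^ n + 11 * u)), by ring⟩

theorem X_modEq {e M : ℕ} (h : M ≤ e) : 2 ^ e + 1 ≡ 1 [MOD 2 ^ M] := by
  have h1 : 2 ^ e ≡ 0 [MOD 2 ^ M] := (Nat.modEq_zero_iff_dvd).mpr (pow_dvd_pow 2 h)
  simpa using h1.add_right 1

theorem fl_modEq_two {e M : ℕ} (h : M ≤ e) : fl e ≡ 1 [MOD 2 ^ M] := by
  have h1 : fl e * (2 ^ e + 1) ≡ fl e * 1 [MOD 2 ^ M] := (X_modEq h).mul_left _
  rw [mul_one, fl_mul] at h1
  exact h1.symm.trans (X_modEq (by omega))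

theorem TT_dvd (e N : ℕ) : ∏ j ∈ Finset.range N, (2 ^ (e * 2 ^ j) + 1) ∣ 2 ^ (e * 2 ^ N) - 1 := by
  have key : (2 ^ e - 1) * ∏ j ∈ Finset.range N, (2 ^ (e * 2 ^ j) + 1) = 2 ^ (e * 2 ^ N) - 1 := by
    induction N with
    | zero => simp
    | succ N ih =>
      rw [Finset.prod_range_succ, ← mul_assoc, ih]
      have h1 : 1 ≤ 2 ^ (e * 2 ^ N) := Nat.one_le_two_pow
      have h2 : (2 : ℕ) ^ (e * 2 ^ (N + 1)) = 2 ^ (e * 2 ^ N) * 2 ^ (e * 2 ^ N) := by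
        rw [← pow_add]; congr 1; ring
      rw [h2]
      generalize (2 : ℕ) ^ (e * 2 ^ N) = y at *
      obtain ⟨x, rfl⟩ := Nat.exists_eq_add_of_le h1
      have : (1 + x) * (1 + x) = x * (1 + x + 1) + 1 := by ring
      rw [this, Nat.add_sub_cancel, Nat.add_sub_cancel_left]
  exact Dvd.intro_left _ key

theorem TT_step (e : ℕ) (s : Finset ℕ) :
    (∏ j ∈ s, (2 ^ (e * 2 ^ j) + 1)) * ∏ j ∈ s, fl (e * 2 ^ j) =
      ∏ j ∈ s, (2 ^ (11 * e * 2 ^ j) + 1) := by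
  rw [← Finset.prod_mul_distrib]
  apply Finset.prod_congr rfl
  intro j _
  rw [mul_comm, fl_mul, mul_assoc]

theorem h11_mod (n m : ℕ) (h : n % 4 = m % 4) : h11 n = h11 m := by
  unfold h11; rw [h]

/-- residues of the level `R+i` base atoms, `R ≡ 2 mod 4` -/
def fr (i : ℕ) : ℕ := h11 (2 + i) + 1

/-- weights of the level `R+i` filler atoms -/
def wr (i : ℕ) : ℕ := [6, 2, 7, 10, 8, 10, 2, 6, 7, 6].getD i 0

theorem base_residue {R : ℕ} (hR : R % 4 = 2) (i : ℕ) :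
    2 ^ (2 ^ (R + i)) + 1 ≡ fr i [MOD 11] := by
  have h0 : ∃ n, R + i = n + 1 := ⟨R + i - 1, by omega⟩
  obtain ⟨n, hn⟩ := h0
  have h1 := h11_spec n
  rw [← hn] at h1
  have h2 : h11 (R + i) = h11 (2 + i) := h11_mod _ _ (by omega)
  unfold fr
  rw [← h2, ← h1]
  exact ((Nat.mod_modEq _ _).symm).add_right 1

theorem choose0 : ∀ a < 5, ∀ t ∈ [1, 3, 4, 9], ∃ v < 222, v % 5 = a ∧ bits fr v 8 % 11 = t := by
  decide +kernel

theorem choose1 : ∀ a < 11, ∀ t < 11, ∃ v < 579, v % 11 = a ∧ bsum wr v 10 % 11 = t := by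
  decide +kernel

theorem solve11 : ∀ x < 11, ∀ y < 11, x ≠ 0 → ∃ t < 11, (y + x * t) % 11 = 0 := by
  decide

theorem solve11' : ∀ x < 11, ∀ y < 11, x ≠ 0 → ∃ t < 11, (x * t) % 11 = y := by
  decide

theorem two_pow_mod11_ne (R : ℕ) : 2 ^ R % 11 ≠ 0 := by
  intro h
  have h1 : 11 ∣ 2 ^ R := Nat.dvd_of_mod_eq_zero h
  have h2 : 11 ∣ 2 := (by norm_num : Nat.Prime 11).dvd_of_dvd_pow h1
  omega

theorem fl_level {R : ℕ} (hR : R % 4 = 2) (c i : ℕ) (hi : i < 10) :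
    fl (11 ^ c * 2 ^ (R + i)) ≡ 1 + 11 ^ (c + 1) * (2 ^ R * wr i) [MOD 11 ^ (c + 1) * 11] := by
  have h0 : ∃ n, R + i = n + 1 := ⟨R + i - 1, by omega⟩
  obtain ⟨n, hn⟩ := h0
  have h1 := h11_spec n
  rw [← hn] at h1
  have h2 : h11 (R + i) = h11 (2 + i) := h11_mod _ _ (by omega)
  rw [h2] at h1
  have h3 : (wr i * (h11 (2 + i) + 1)) % 11 = (5 * 2 ^ i * h11 (2 + i)) % 11 := by
    interval_cases i <;> decide
  have h4 : wr i * (2 ^ 2 ^ (R + i) + 1) ≡ 5 * 2 ^ i * 2 ^ 2 ^ (R + i) [MOD 11] := by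
    have h5 : 2 ^ 2 ^ (R + i) ≡ h11 (2 + i) [MOD 11] := by
      rw [← h1]; exact (Nat.mod_modEq _ _).symm
    exact ((h5.add_right 1).mul_left _).trans (Nat.ModEq.trans h3 (h5.mul_left _).symm)
  have h6 : (11 : ℤ) ∣ (2 ^ R * wr i : ℤ) * (2 ^ 2 ^ (R + i) + 1) -
      5 * 2 ^ (R + i) * 2 ^ 2 ^ (R + i) := by
    have h7 := (Nat.modEq_iff_dvd.mp h4.symm)
    push_cast at h7
    have h8 := Dvd.dvd.mul_left h7 (2 ^ R)
    have e : (2 : ℤ) ^ R * ((wr i : ℤ) * (2 ^ 2 ^ (R + i) + 1) - 5 * 2 ^ i * 2 ^ 2 ^ (R + i)) =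
      (2 ^ R * wr i : ℤ) * (2 ^ 2 ^ (R + i) + 1) - 5 * 2 ^ (R + i) * 2 ^ 2 ^ (R + i) := by
      rw [pow_add 2 R i]; ring
    rwa [e] at h8
  have h9 := fl_expand c (R + i) (2 ^ R * wr i) h6
  apply Nat.ModEq.symm
  rw [Nat.modEq_iff_dvd]
  push_cast
  have e : ((11 : ℤ) ^ (c + 1) * 11) = 11 ^ (c + 2) := by ring
  rw [e]
  exact h9

/-- one digit-lifting step -/
theorem stage {R : ℕ} (hR : R % 4 = 2) (c n a : ℕ) (hn : n ≡ 1 [MOD 11 ^ (c + 1)])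
    (ha : a < 11) :
    ∃ v < 579, v % 11 = a ∧
      n * bits (fun i => fl (11 ^ c * 2 ^ (R + i))) v 10 ≡ 1 [MOD 11 ^ (c + 2)] := by
  have hn1 : 1 ≤ n := by
    rcases Nat.eq_zero_or_pos n with h | h
    · exfalso
      rw [h] at hn
      have h1 : 1 < 11 ^ (c + 1) := Nat.one_lt_pow (by omega) (by norm_num)
      have h2 : 11 ^ (c + 1) ∣ 1 := (Nat.modEq_iff_dvd' (Nat.zero_le 1)).mp hn
      have := Nat.le_of_dvd (by norm_num) h2
      omega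
    · exact h
  obtain ⟨ν, hν⟩ := (Nat.modEq_iff_dvd' hn1).mp hn.symm
  have hn' : n = 1 + 11 ^ (c + 1) * ν := by omega
  obtain ⟨t, ht, htt⟩ := solve11 (2 ^ R % 11) (Nat.mod_lt _ (by norm_num)) (ν % 11)
    (Nat.mod_lt _ (by norm_num)) (two_pow_mod11_ne R)
  obtain ⟨v, hv, hva, hvt⟩ := choose1 a ha t ht
  refine ⟨v, hv, hva, ?_⟩
  have h1 := bits_lin (P := 11 ^ (c + 1)) (κ := 2 ^ R) ⟨11 ^ c, by ring⟩
    (fun i => fl (11 ^ c * 2 ^ (R + i))) wr v 10 (fun i hi => fl_level hR c i hi)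
  have h2 : (11 : ℕ) ^ (c + 2) = 11 ^ (c + 1) * 11 := by ring
  rw [h2]
  refine (h1.mul_left n).trans ?_
  have h3 : 11 ∣ ν + 2 ^ R * bsum wr v 10 := by
    apply Nat.dvd_of_mod_eq_zero
    rw [Nat.add_mod, Nat.mul_mod, hvt, Nat.add_mod_mod] 
    simpa [Nat.add_mod, Nat.mul_mod] using htt
  obtain ⟨w, hw⟩ := h3
  have h4 : n * (1 + 11 ^ (c + 1) * (2 ^ R * bsum wr v 10)) =
      1 + (11 ^ (c + 1) * 11) * (w + 11 ^ c * (ν * (2 ^ R * bsum wr v 10))) := by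
    rw [hn']
    have : (1 + 11 ^ (c + 1) * ν) * (1 + 11 ^ (c + 1) * (2 ^ R * bsum wr v 10)) =
      1 + 11 ^ (c + 1) * (ν + 2 ^ R * bsum wr v 10) +
       11 ^ (c + 1) * 11 * (11 ^ c * (ν * (2 ^ R * bsum wr v 10))) := by ring
    rw [this, hw]; ring
  rw [h4]
  exact ((Nat.modEq_iff_dvd' (by omega)).mpr ⟨_, by rw [Nat.add_sub_cancel_left]⟩).symm

end Pool.Agent.Helper95.Psp
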