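import Pool.Agent.Helper95.PspBasic

set_option autoImplicit false

namespace Pool.Agent.Helper95.Psp

/-- small pseudoprimes `a * p` dividing `2 ^ m - 1`, listed as `(a, p, m)` -/
def dataD00 : List (ℕ × ℕ × ℕ) := [
  (11, 31, 10), (3, 215, 28), (5, 221, 24), (23, 89, 11), (37, 109, 36), (73, 109, 36),
  (7, 2263, 45), (103, 307, 102), (3, 20915, 1012), (59, 2089, 58), (401, 601, 200),
  (337, 1429, 84), (23, 41339, 462), (11, 172451, 780), (5, 755837, 688), (13, 580537, 1020),
  (2221, 6661, 2220), (2389, 11941, 2388), (3769, 15073, 1884), (7537, 15073, 1256),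
  (10657, 21313, 5328), (8693, 52153, 8692), (10627, 85009, 1518), (17333, 103993, 17332),
  (30013, 120049, 30012), (48953, 146857, 12238), (53593, 267961, 26796), (84691, 338761, 84690),
  (119771, 479081, 119770), (239521, 479041, 119760)]

theorem covD00 : Cov 171 114740379361 :=
  chkS_sound 114740379361 dataD00 _ (by decide +kernel)

end Pool.Agent.Helper95.Psp
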