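import Pool.Agent.Helper95.PspBasic
import Pool.Agent.Helper95.PspTab

set_option autoImplicit false
set_option maxRecDepth 1000000

namespace Pool.Agent.Helper95.Psp

def dataD01 : List ℕ := [
  0x10186, 0x2000b, 0x98f, 0x20231, 0xbb5, 0x10705, 0x10266, 0x10f3, 0x8863, 0x81003, 0xf3a,
  0x4168, 0x18212, 0x2a1b, 0x1c56, 0x20984, 0x1058d, 0x100ee, 0x4273, 0x11253, 0x81129, 0x41041,
  0x82821, 0x11837, 0x90250, 0x83dd, 0xc074, 0x6117, 0x88442, 0x809c6, 0x10800b, 0x93e8, 0x15211,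
  0x40ae0, 0x41246, 0x82a26, 0x25003, 0x100b3a, 0xa3d6, 0x240f0, 0xc593, 0x104049, 0x19627,
  0x9083f, 0x23560, 0x1988e, 0x108a64, 0x250b1, 0x104c21, 0x31837, 0xb0250, 0x88e59, 0x8a474,
  0x202288, 0x188042, 0x54802, 0xc108c, 0x128231, 0x180b45, 0x8b680, 0x2ca26, 0x10520f, 0x25987,
  0x404168, 0x150212, 0x800a1b, 0x900000, 0x53227, 0xc181f, 0x203560, 0x3988e, 0x10d129,
  0x2050b1, 0x804821, 0x191185, 0x198250, 0x280a59, 0x282074, 0x820288, 0x115492, 0x72186,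
  0x2900ac, 0x900231, 0x10d32e, 0x2900d8, 0x804a26, 0x12520f, 0x205987, 0x424168, 0x170212,
  0x820a1b, 0x920000, 0x11ca8a, 0xe181f, 0x223560, 0x15188e, 0x283529, 0x243441, 0x25049a,
  0x139837, 0x36fd4, 0x10005d1, 0x8a0074, 0x340288, 0x155092, 0x314802, 0x38108c, 0x1b03f5,
  0x580b45, 0x883680, 0x824a26, 0x30520f, 0x225987, 0x604168, 0x350212, 0xa00a1b, 0xb00000,
  0x13ca8a, 0x2c181f, 0x1003560, 0x17188e, 0x81645c, 0x1012461, 0x101209a, 0x519837, 0x216fd4,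
  0xc021d1, 0xa80074, 0x360288, 0x175092, 0x334802, 0x3a108c, 0xd00231, 0x5a0b45, 0x10900d8,
  0xa04a26, 0x9058e4, 0x1005987, 0x624168, 0x370212, 0xa20a1b, 0xb20000, 0x914a8a, 0x109083f,
  0x1023560, 0x35188e, 0x1083529, 0x1043441, 0x105049a, 0x539837, 0x236fd4, 0x14005d1, 0xaa0074,
  0x1140288, 0x355092, 0x1114802, 0x118108c, 0xd20231, 0x780b45, 0xa83680, 0x1104aa9, 0x110520f,
  0x1025987, 0x1404168, 0x1150212, 0x1800a1b, 0x1900000, 0x934a8a, 0x10c181f, 0x1203560,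
  0xa3188e, 0x750381, 0x12050b1, 0x1804821, 0x1191185, 0xd90250, 0x1280a59, 0x1282074, 0x1820288,
  0xa35092, 0x674802, 0x12900ac, 0x1900231, 0x7a0b45, 0x12900d8, 0x1804a26, 0xb058e4, 0x1205987,
  0x1424168, 0x1170212, 0x1820a1b, 0x1920000, 0xb14a8a, 0x10e181f, 0x1223560, 0x115188e,
  0x1283529, 0x2000b07, 0x125049a, 0xd31837, 0x1036fd4, 0x20005d1, 0x18a0074, 0x1340288,
  0x1155092, 0x1314802, 0x138108c, 0xf20231, 0x1580b45, 0x1883680, 0x1824a26, 0x130520f,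
  0x1225987, 0x1604168, 0x1350212, 0x2008a1b, 0x2108000, 0x1391016, 0x12c181f, 0x2003560,
  0x117188e, 0x181645c, 0x2012461, 0x201209a, 0xf11837, 0x1216fd4, 0x200a1d1, 0x2088074,
  0x1360288, 0x1175092, 0x1334802, 0x13a108c, 0x1d00231, 0x15a0b45, 0x20900d8, 0x200ca26,
  0x20058e4, 0x19310a4, 0x200c568, 0x2038212, 0x13c1908, 0x2420000, 0x2014a8a, 0xf98809,
  0x210136c, 0x201988e, 0x2108a64, 0x20250b1, 0x2104c21, 0x2031837, 0x19b0250, 0x20425d1,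
  0x20a2074, 0x2800288, 0x1a15092, 0x1654802, 0x20c108c, 0x2128231, 0x2180b45, 0x208b680,
  0x202ca26, 0x210520f, 0x2025987, 0x2404168, 0x2150212, 0x2800a1b, 0x2900000, 0x2053227,
  0x20c181f, 0x2203560, 0x203988e, 0x210d129, 0x22050b1, 0x2804821, 0x2191185, 0x1d90250,
  0x2280a59, 0x2282074, 0x2820288, 0x2115492]

theorem covD01 : Cov (114740379361) (2 ^ 300) :=
  chk_sound 720 (2 ^ 720 - 1) (2 ^ 300) tab720 rfl dataD01 _ (by decide +kernel)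

end Pool.Agent.Helper95.Psp
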