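import Mathlib
import Pool.Agent.Helper95.PspAtoms

set_option autoImplicit false

namespace Pool.Agent.Helper95.Psp

/-- lifting all the digits up to `11^c` -/
theorem lift {R L M : ℕ} (hR : R % 4 = 2) (hL : 10 ≤ L) (hM : 2 ^ R = 2 * M) {w0 D : ℕ}
    (hw0 : w0 ≡ 1 [MOD 11]) (hD10 : 10 ∣ D) (c : ℕ) (hD : 2 ^ R * 578 * 11 ^ c ≤ D) :
    ∃ r e : ℕ, w0 * r ≡ 1 [MOD 11 ^ (c + 1)] ∧ r ≡ 1 [MOD 2 ^ M] ∧
      e ≤ 2 ^ R * 578 * (11 ^ c - 1) ∧ 10 * 11 ^ c ∣ D - e ∧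
      Nr ((1 / 2 : ℝ) ^ 2 ^ R) (10 * c) e r ∧
      (∏ i ∈ Finset.range L, (2 ^ (2 ^ (R + i)) + 1)) * r ∣
        ∏ i ∈ Finset.range L, (2 ^ (11 ^ c * 2 ^ (R + i)) + 1) := by
  have ht0 : (0 : ℝ) ≤ (1 / 2 : ℝ) ^ 2 ^ R := by positivity
  have ht1 : (1 / 2 : ℝ) ^ 2 ^ R ≤ 1 := pow_le_one₀ (by norm_num) (by norm_num)
  induction c with
  | zero =>
    refine ⟨1, 0, by simpa using hw0, Nat.ModEq.refl _, Nat.zero_le _, by simpa using hD10,
      Nr.one ht0 ht1 0, by simp⟩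
  | succ c ih =>
    have hpow : (11 : ℕ) ^ (c + 1) = 11 * 11 ^ c := by ring
    have hpos : 0 < (11 : ℕ) ^ c := by positivity
    obtain ⟨r, e, h1, h2, h3, h4, h5, h6⟩ := ih (by
      refine le_trans (Nat.mul_le_mul_left _ ?_) hD
      rw [hpow]; omega)
    obtain ⟨A, hA⟩ := h4
    obtain ⟨a, ha, haA⟩ := solve11' (2 ^ R % 11) (Nat.mod_lt _ (by norm_num)) (A % 11)
      (Nat.mod_lt _ (by norm_num)) (two_pow_mod11_ne R)
    obtain ⟨v, hv, hva, hvn⟩ := stage hR c (w0 * r) a h1 ha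
    have hRc : 2 ^ R ≤ 11 ^ c * 2 ^ R := Nat.le_mul_of_pos_left _ hpos
    have hgood : ∀ i, 2 ^ R ≤ 11 ^ c * 2 ^ (R + i) := fun i =>
      le_trans hRc (Nat.mul_le_mul_left _ (Nat.pow_le_pow_right (by norm_num) (by omega)))
    refine ⟨r * bits (fun i => fl (11 ^ c * 2 ^ (R + i))) v 10, e + 10 * 11 ^ c * 2 ^ R * v,
      ?_, ?_, ?_, ?_, ?_, ?_⟩
    · rw [← mul_assoc]; exact hvn
    · have := bits_modEq_one (m := 2 ^ M) (fun i => fl (11 ^ c * 2 ^ (R + i))) v 10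
        (fun i _ => fl_modEq_two (by have := hgood i; omega))
      simpa using h2.mul this
    · have : 10 * 11 ^ c * 2 ^ R * v ≤ 10 * 11 ^ c * 2 ^ R * 578 :=
        Nat.mul_le_mul_left _ (by omega)
      have e1 : 2 ^ R * 578 * (11 ^ (c + 1) - 1) =
          2 ^ R * 578 * (11 ^ c - 1) + 10 * 11 ^ c * 2 ^ R * 578 := by
        obtain ⟨p, hp⟩ := Nat.exists_eq_add_of_le hpos
        have e2 : 11 ^ (c + 1) - 1 = 11 * p + 10 := by rw [hpow, hp]; omega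
        have e3 : 11 ^ c - 1 = p := by omega
        rw [e2, e3, hp]; ring
      rw [e1]; omega
    · have hle : 2 ^ R * v ≤ A := by
        have e0 : e ≤ 2 ^ R * 578 * 11 ^ c :=
          le_trans h3 (Nat.mul_le_mul_left _ (Nat.sub_le _ _))
        have e1 : 2 ^ R * 578 * 11 ^ (c + 1) ≤ D := hD
        have e2 : 10 * 11 ^ c * (2 ^ R * v) ≤ 10 * 11 ^ c * A := by
          rw [← hA]
          have : 10 * 11 ^ c * (2 ^ R * v) ≤ 10 * 11 ^ c * (2 ^ R * 578) :=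
            Nat.mul_le_mul_left _ (Nat.mul_le_mul_left _ (by omega))
          have e3 : 10 * 11 ^ c * (2 ^ R * 578) + 2 ^ R * 578 * 11 ^ c =
            2 ^ R * 578 * 11 ^ (c + 1) := by rw [hpow]; ring
          omega
        exact Nat.le_of_mul_le_mul_left e2 (by positivity)
      have e4 : D - (e + 10 * 11 ^ c * 2 ^ R * v) = 10 * 11 ^ c * (A - 2 ^ R * v) := by
        rw [Nat.sub_add_eq, hA, Nat.mul_sub]
        congr 1; ring
      rw [e4, hpow]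
      have h11 : 11 ∣ A - 2 ^ R * v := by
        apply (Nat.modEq_iff_dvd' hle).mp
        show 2 ^ R * v % 11 = A % 11
        rw [← haA, Nat.mul_mod, hva]
      obtain ⟨B, hB⟩ := h11
      rw [hB]
      exact ⟨B, by ring⟩
    · have := h5.mul ht0 ht1 (bits_Nr ht0 ht1 (fun i => fl (11 ^ c * 2 ^ (R + i)))
        (10 * 11 ^ c * 2 ^ R) v 10 (fun i _ => by
          have := Nr.fl (hgood i)
          have e1 : 10 * 11 ^ c * 2 ^ R * 2 ^ i = 10 * (11 ^ c * 2 ^ (R + i)) := by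
            rw [pow_add]; ring
          rw [e1]; exact this))
      rw [Nat.mod_eq_of_lt (show v < 2 ^ 10 by omega)] at this
      have e1 : 10 * (c + 1) = 10 * c + 10 := by ring
      rw [e1]; exact this
    · have h7 : bits (fun i => fl (11 ^ c * 2 ^ (R + i))) v 10 ∣
          ∏ i ∈ Finset.range L, fl (11 ^ c * 2 ^ (R + i)) :=
        (bits_dvd _ _ _).trans (Finset.prod_dvd_prod_of_subset _ _ _
          (Finset.range_subset_range.mpr hL))
      have h8 : (∏ i ∈ Finset.range L, (2 ^ (11 ^ c * 2 ^ (R + i)) + 1)) *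
          (∏ i ∈ Finset.range L, fl (11 ^ c * 2 ^ (R + i))) =
          ∏ i ∈ Finset.range L, (2 ^ (11 ^ (c + 1) * 2 ^ (R + i)) + 1) := by
        rw [← Finset.prod_mul_distrib]
        apply Finset.prod_congr rfl
        intro j _
        rw [mul_comm, fl_mul]
        congr 2; ring
      rw [← h8, ← mul_assoc]
      exact mul_dvd_mul h6 h7

theorem finish_bounds {σ W1 W2 : ℝ} (hσ0 : 0 < σ) (hσ1 : σ ≤ 1 / 16) (h1 : 1 - σ / 4 ≤ W1)
    (h2 : W2 * (1 - σ / 4) ≤ 1) (h0 : 0 < W2) :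
    1 < (1 + σ) * W1 ∧ 4 * ((1 + σ) * W2) < 5 ∧ 3 < 4 * ((1 - σ) * W1) ∧
      (1 + σ ^ 11) * W2 < 1 + σ := by
  have hW2 : W2 ≤ 1 / (1 - σ / 4) := by
    rw [le_div_iff₀ (by linarith)]; exact h2
  have hσ11 : σ ^ 11 ≤ σ / 16 := by
    have : σ ^ 10 ≤ (1 / 16 : ℝ) ^ 10 := pow_le_pow_left₀ hσ0.le hσ1 10
    have e : σ ^ 11 = σ * σ ^ 10 := by ring
    rw [e]
    have : σ ^ 10 ≤ 1 / 16 := this.trans (by norm_num)
    nlinarith
  refine ⟨?_, ?_, ?_, ?_⟩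
  · nlinarith
  · nlinarith
  · nlinarith
  · nlinarith [mul_nonneg hσ0.le h0.le]

theorem finish {P K e w : ℕ} (hP : 4 ≤ P) (hK : K ≤ 2 ^ (P - 2))
    (hw : Nr ((1 / 2 : ℝ) ^ (2 * P)) K e w) :
    (2 ^ (P + e) < (2 ^ P + 1) * w ∧ 4 * ((2 ^ P + 1) * w) < 5 * 2 ^ (P + e)) ∧
    (3 * 2 ^ (10 * P + e) < 4 * (fl P * w) ∧ fl P * w < 2 ^ (10 * P + e)) := by
  set σ : ℝ := (1 / 2 : ℝ) ^ P with hσ
  have hσ0 : 0 < σ := by positivity
  have hσ1 : σ ≤ 1 / 16 := by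
    have : (1 / 2 : ℝ) ^ P ≤ (1 / 2 : ℝ) ^ 4 := pow_le_pow_of_le_one (by norm_num) (by norm_num) hP
    calc σ ≤ (1 / 2 : ℝ) ^ 4 := this
      _ = 1 / 16 := by norm_num
  have hσP : σ * 2 ^ P = 1 := by rw [hσ, ← mul_pow]; norm_num
  have ht : (1 / 2 : ℝ) ^ (2 * P) = σ ^ 2 := by rw [hσ, ← pow_mul]; congr 1; ring
  rw [ht] at hw
  obtain ⟨hw1, hw2⟩ := hw
  have hKt : (K : ℝ) * σ ^ 2 ≤ σ / 4 := by
    have h1 : (K : ℝ) ≤ 2 ^ (P - 2) := by exact_mod_cast hK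
    have h2 : (2 : ℝ) ^ P = 2 ^ (P - 2) * 4 := by
      have : P = (P - 2) + 2 := by omega
      conv_lhs => rw [this, pow_add]
      norm_num
    have h3 : (K : ℝ) * σ ^ 2 ≤ 2 ^ (P - 2) * σ ^ 2 := mul_le_mul_of_nonneg_right h1 (by positivity)
    have h4 : (2 : ℝ) ^ (P - 2) * σ ^ 2 = σ / 4 := by
      have h5 : σ * (2 ^ (P - 2) * 4) = 1 := by rw [← h2]; exact hσP
      have : (2 : ℝ) ^ (P - 2) * σ ^ 2 = (σ * (2 ^ (P - 2) * 4)) * σ / 4 := by ring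
      rw [this, h5, one_mul]
    linarith
  have hB : 1 - σ / 4 ≤ (1 - σ ^ 2) ^ K := by
    have := one_add_mul_le_pow (a := -σ ^ 2) (by nlinarith) K
    have e1 : (1 : ℝ) + -σ ^ 2 = 1 - σ ^ 2 := by ring
    rw [e1] at this
    nlinarith
  have hprod : (1 + σ ^ 2) ^ K * (1 - σ ^ 2) ^ K ≤ 1 := by
    rw [← mul_pow]
    apply pow_le_one₀
    · exact mul_nonneg (by positivity) (by nlinarith)
    · nlinarith [sq_nonneg (σ ^ 2)]
  have h0 : 0 < (1 + σ ^ 2) ^ K := by positivity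
  have h2 : (1 + σ ^ 2) ^ K * (1 - σ / 4) ≤ 1 :=
    (mul_le_mul_of_nonneg_left hB h0.le).trans hprod
  obtain ⟨b1, b2, b3, b4⟩ := finish_bounds hσ0 hσ1 hB h2 h0
  have hE : (0 : ℝ) < 2 ^ e := by positivity
  have hPp : (0 : ℝ) < 2 ^ P := by positivity
  have h10 : (0 : ℝ) < 2 ^ (10 * P) := by positivity
  generalize (1 - σ ^ 2) ^ K = W1 at *
  generalize (1 + σ ^ 2) ^ K = W2 at *
  have hs : (2 : ℝ) ^ P + 1 = (1 + σ) * 2 ^ P := by
    rw [add_mul, one_mul, hσP]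
  have hfl := fl_bounds P
  rw [← hσ] at hfl
  have hfl2 : (fl P : ℝ) * (1 + σ) = (1 + σ ^ 11) * 2 ^ (10 * P) := by
    have h := fl_mul P
    have h' : (fl P : ℝ) * (2 ^ P + 1) = 2 ^ (11 * P) + 1 := by exact_mod_cast h
    rw [hs] at h'
    have e1 : (2 : ℝ) ^ (11 * P) = 2 ^ (10 * P) * 2 ^ P := by rw [← pow_add]; congr 1; ring
    have e2 : (1 : ℝ) = σ ^ 11 * (2 ^ (10 * P) * 2 ^ P) := by
      rw [← e1, mul_comm 11 P, pow_mul, ← mul_pow, hσP, one_pow]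
    rw [e1] at h'
    have e3 : (fl P : ℝ) * (1 + σ) * 2 ^ P = (1 + σ ^ 11) * 2 ^ (10 * P) * 2 ^ P := by
      calc (fl P : ℝ) * (1 + σ) * 2 ^ P = fl P * ((1 + σ) * 2 ^ P) := by ring
        _ = 2 ^ (10 * P) * 2 ^ P + 1 := h'
        _ = 2 ^ (10 * P) * 2 ^ P + σ ^ 11 * (2 ^ (10 * P) * 2 ^ P) := by rw [← e2]
        _ = _ := by ring
    exact mul_right_cancel₀ hPp.ne' e3
  have hWpos : 0 < W1 := by linarith
  refine ⟨⟨?_, ?_⟩, ⟨?_, ?_⟩⟩
  · have : (2 : ℝ) ^ (P + e) < (2 ^ P + 1) * w := by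
      rw [hs, pow_add]
      calc (2 : ℝ) ^ P * 2 ^ e = 1 * (2 ^ P * 2 ^ e) := by ring
        _ < ((1 + σ) * W1) * (2 ^ P * 2 ^ e) := by
            apply mul_lt_mul_of_pos_right b1 (by positivity)
        _ = (1 + σ) * 2 ^ P * (W1 * 2 ^ e) := by ring
        _ ≤ _ := by apply mul_le_mul_of_nonneg_left hw1 (by positivity)
    exact_mod_cast this
  · have : 4 * (((2 : ℝ) ^ P + 1) * w) < 5 * 2 ^ (P + e) := by
      rw [hs, pow_add]
      calc 4 * ((1 + σ) * 2 ^ P * w) ≤ 4 * ((1 + σ) * 2 ^ P * (W2 * 2 ^ e)) := by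
            apply mul_le_mul_of_nonneg_left _ (by norm_num)
            apply mul_le_mul_of_nonneg_left hw2 (by positivity)
        _ = (4 * ((1 + σ) * W2)) * (2 ^ P * 2 ^ e) := by ring
        _ < 5 * (2 ^ P * 2 ^ e) := by
            apply mul_lt_mul_of_pos_right b2 (by positivity)
    exact_mod_cast this
  · have : 3 * (2 : ℝ) ^ (10 * P + e) < 4 * (fl P * w) := by
      rw [pow_add]
      calc 3 * ((2 : ℝ) ^ (10 * P) * 2 ^ e) < (4 * ((1 - σ) * W1)) * (2 ^ (10 * P) * 2 ^ e) := by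
            apply mul_lt_mul_of_pos_right b3 (by positivity)
        _ = 4 * (((1 - σ) * 2 ^ (10 * P)) * (W1 * 2 ^ e)) := by ring
        _ ≤ 4 * (fl P * w) := by
            apply mul_le_mul_of_nonneg_left _ (by norm_num)
            apply mul_le_mul hfl.1 hw1 (by positivity) (by positivity)
    exact_mod_cast this
  · have : (fl P : ℝ) * w < 2 ^ (10 * P + e) := by
      rw [pow_add]
      have h3 : (fl P : ℝ) * w * (1 + σ) < (2 ^ (10 * P) * 2 ^ e) * (1 + σ) := by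
        calc (fl P : ℝ) * w * (1 + σ) = (fl P * (1 + σ)) * w := by ring
          _ = (1 + σ ^ 11) * 2 ^ (10 * P) * w := by rw [hfl2]
          _ ≤ (1 + σ ^ 11) * 2 ^ (10 * P) * (W2 * 2 ^ e) := by
            apply mul_le_mul_of_nonneg_left hw2 (by positivity)
          _ = ((1 + σ ^ 11) * W2) * (2 ^ (10 * P) * 2 ^ e) := by ring
          _ < (1 + σ) * (2 ^ (10 * P) * 2 ^ e) := by
            apply mul_lt_mul_of_pos_right b4 (by positivity)
          _ = _ := by ring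
      exact lt_of_mul_lt_mul_right h3 (by linarith)
    exact_mod_cast this

theorem pow_bound (k : ℕ) (hk : 1 ≤ k) : 16 * k + 16 ≤ 2 ^ (4 * k + 1) := by
  induction k, hk using Nat.le_induction with
  | base => norm_num
  | succ k hk ih =>
    have : 2 ^ (4 * (k + 1) + 1) = 16 * 2 ^ (4 * k + 1) := by ring
    omega

theorem pow121_bound (k : ℕ) (hk : 1 ≤ k) : 2 ^ (4 * k + 2) ≤ 121 ^ k := by
  induction k, hk using Nat.le_induction with
  | base => norm_num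
  | succ k hk ih =>
    have h1 : 2 ^ (4 * (k + 1) + 2) = 16 * 2 ^ (4 * k + 2) := by ring
    have h2 : 121 ^ (k + 1) = 121 * 121 ^ k := by ring
    omega

/-- assembling a pseudoprime for the infinite family -/
theorem family_core {k E s es rs : ℕ} (hk : 1 ≤ k) (h1 : 580 * 2 ^ (4 * k + 2) * 121 ^ k ≤ E)
    (h2 : E < 580 * 2 ^ (4 * k + 6) * 121 ^ (k + 1)) (hes : es ≤ 5 * 2 ^ (4 * k + 2))
    (hes2 : 2 ∣ es) (hs11 : s ≡ rs [MOD 11]) (hrs : rs = 5 ∨ rs = 1)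
    (hsM : s ≡ 1 [MOD 2 ^ 2 ^ (4 * k + 1)])
    (hsd : s ∣ 2 ^ (11 ^ (2 * k) * 2 ^ (4 * k + 1)) + 1) :
    ∃ w e : ℕ, es + e = E ∧ 1 ≤ e ∧ Nr ((1 / 2 : ℝ) ^ (2 * 2 ^ (4 * k + 1)))
      (2 ^ (2 ^ (4 * k + 1) - 2)) e w ∧
      s * w ∣ 2 ^ (11 ^ (2 * k + 1) * 2 ^ 2 ^ (4 * k + 1)) - 1 ∧
      11 ^ (2 * k + 1) * 2 ^ 2 ^ (4 * k + 1) ∣ s * w - 1 := by
  have hb1 := pow_bound k hk
  have hb2 := pow121_bound k hk
  have hk121 : 121 ≤ 121 ^ k := by
    calc 121 = 121 ^ 1 := by norm_num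
      _ ≤ 121 ^ k := Nat.pow_le_pow_right (by norm_num) hk
  have e26 : 2 ^ (4 * k + 6) = 16 * 2 ^ (4 * k + 2) := by ring
  have e121 : 121 ^ (k + 1) = 121 * 121 ^ k := by ring
  rw [e26, e121] at h2
  obtain ⟨H, hH⟩ : ∃ H, H = 11 ^ (2 * k) := ⟨_, rfl⟩
  have hH121 : 121 ^ k = H := by rw [hH, pow_mul]; norm_num
  rw [hH121] at h1 h2 hb2 hk121
  have hR4 : (4 * k + 2) % 4 = 2 := by omega
  have hRM : 2 ^ (4 * k + 2) = 2 * 2 ^ (4 * k + 1) := by ring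
  have hR5 : 2 ^ (4 * k + 2) % 5 = 4 := by
    have : 2 ^ (4 * k + 2) = 4 * 16 ^ k := by
      rw [pow_add, pow_mul]; norm_num; ring
    rw [this, Nat.mul_mod, Nat.pow_mod]; norm_num
  have hk4 : 4 * k + 2 + 17 ≤ 2 ^ (4 * k + 1) := by omega
  rw [← hH] at hsd
  clear e26 e121
  generalize hR : 4 * k + 2 = R at h1 h2 hes hR4 hRM hR5 hk4 hb2
  generalize hr : 4 * k + 1 = r at hb1 hRM hk4 hsM hsd ⊢
  have hr0 : 0 < r := by omega
  have hrR : r + 1 = R := by omega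
  generalize hM : 2 ^ r = M at hb1 hRM hk4 hsM ⊢
  have hM32 : 32 ≤ M := by omega
  have hHodd : H % 2 = 1 := by rw [hH, Nat.pow_mod]; norm_num
  have hH1 : 0 < H := by omega
  -- the factor for odd `E`
  obtain ⟨u, eu, ur, hur, hu11, huM, hud, huN, heu, hEeu⟩ : ∃ u eu ur : ℕ, (ur = 3 ∨ ur = 1) ∧
      u ≡ ur [MOD 11] ∧ u ≡ 1 [MOD 2 ^ M] ∧ u ∣ 2 ^ (H * 2 ^ 0) + 1 ∧
      Nr ((1 / 2 : ℝ) ^ (2 * M)) 1 eu u ∧ eu ≤ H ∧ (E - eu) % 2 = 0 := by
    have ht0 : (0 : ℝ) ≤ (1 / 2 : ℝ) ^ (2 * M) := by positivity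
    have ht1 : (1 / 2 : ℝ) ^ (2 * M) ≤ 1 := pow_le_one₀ (by norm_num) (by norm_num)
    have hHE : H ≤ E := by
      refine le_trans ?_ h1
      exact Nat.le_mul_of_pos_left _ (by positivity)
    rcases Nat.mod_two_eq_zero_or_one E with h | h
    · exact ⟨1, 0, 1, Or.inr rfl, Nat.ModEq.refl _, Nat.ModEq.refl _, one_dvd _,
        Nr.one ht0 ht1 1, Nat.zero_le _, by simpa using h⟩
    · refine ⟨2 ^ H + 1, H, 3, Or.inl rfl, ?_, X_modEq (by omega), by simp,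
        Nr.pow_add_one (by omega), le_rfl, by omega⟩
      have h3 := two_pow_mod11 (2 * k) 1
      rw [← hH, mul_one] at h3
      have h4 : 2 ^ H ≡ 2 [MOD 11] := by
        apply Nat.ModEq.symm
        rw [Nat.modEq_iff_dvd]
        push_cast
        simpa using h3
      exact h4.add_right 1
  obtain ⟨t, ht, htt⟩ : ∃ t ∈ [1, 3, 4, 9], ur * rs * t % 11 = 1 := by
    rcases hur with rfl | rfl <;> rcases hrs with rfl | rfl
    · exact ⟨3, by decide, by decide⟩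
    · exact ⟨4, by decide, by decide⟩
    · exact ⟨9, by decide, by decide⟩
    · exact ⟨1, by decide, by decide⟩
  obtain ⟨v, hv, hv5, hvt⟩ := choose0 ((4 * (E - eu - es)) % 5) (Nat.mod_lt _ (by norm_num)) t ht
  have hRH : 64 * H ≤ 2 ^ R * H := by
    apply Nat.mul_le_mul_right; omega
  have hRH2 : 2 ^ R * 121 ≤ 2 ^ R * H := Nat.mul_le_mul_left _ hk121
  have h1' : 580 * (2 ^ R * H) ≤ E := by rw [← mul_assoc]; exact h1
  have hvR : 2 ^ R * v ≤ 2 ^ R * 221 := Nat.mul_le_mul_left _ (by omega)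
  have hD1 : 2 ^ R * 578 * 11 ^ (2 * k) ≤ E - eu - es - 2 ^ R * v := by
    rw [← hH]
    have : 2 ^ R * 578 * H = 578 * (2 ^ R * H) := by ring
    rw [this]
    omega
  have hD10 : 10 ∣ E - eu - es - 2 ^ R * v := by
    have h5 : (2 ^ R * v) % 5 = (E - eu - es) % 5 := by
      rw [Nat.mul_mod, hR5, hv5]; omega
    have h2' : (2 ^ R * v) % 2 = 0 := by
      rw [hRM, mul_assoc]; omega
    have hle : 2 ^ R * v ≤ E - eu - es := by omega
    have h3 : (E - eu - es) % 2 = 0 := by omega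
    omega
  obtain ⟨p, e, hp11, hpM, hpe, hpD, hpN, hpd⟩ := lift (R := R) (L := M - R) (M := M) hR4
    (by omega) hRM (w0 := u * s * bits (fun i => 2 ^ (2 ^ (R + i)) + 1) v 8)
    (D := E - eu - es - 2 ^ R * v) (by
      have h5 := bits_congr (m := 11) (fun i => 2 ^ (2 ^ (R + i)) + 1) fr v 8
        (fun i _ => base_residue hR4 i)
      have h6 := (hu11.mul hs11).mul h5
      refine h6.trans ?_
      have h7 : ur * rs * bits fr v 8 ≡ ur * rs * t [MOD 11] := by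
        apply Nat.ModEq.mul_left
        show bits fr v 8 % 11 = t % 11
        rw [hvt]
        have ht' : t = 1 ∨ t = 3 ∨ t = 4 ∨ t = 9 := by simpa using ht
        omega
      exact h7.trans htt) hD10 (2 * k) hD1
  rw [← hH] at hpe hpD hpd
  obtain ⟨z, hz⟩ := hpD
  have hzM : z < 2 ^ M := by
    have h3 : 10 * H * z ≤ E := by rw [← hz]; omega
    have h4 : 10 * H * z < 10 * H * (2 ^ 17 * 2 ^ R) := by
      refine lt_of_le_of_lt h3 (lt_trans h2 ?_)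
      have e1 : 580 * (16 * 2 ^ R) * (121 * H) = 1122880 * (2 ^ R * H) := by ring
      have e2 : 10 * H * (2 ^ 17 * 2 ^ R) = 1310720 * (2 ^ R * H) := by ring
      rw [e1, e2]
      apply Nat.mul_lt_mul_of_pos_right (by norm_num)
      positivity
    have h5 : z < 2 ^ 17 * 2 ^ R := lt_of_mul_lt_mul_left h4 (Nat.zero_le _)
    refine lt_of_lt_of_le h5 ?_
    rw [← pow_add]
    exact Nat.pow_le_pow_right (by norm_num) (by omega)
  have ht0 : (0 : ℝ) ≤ (1 / 2 : ℝ) ^ (2 * M) := by positivity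
  have ht1 : (1 / 2 : ℝ) ^ (2 * M) ≤ 1 := pow_le_one₀ (by norm_num) (by norm_num)
  rw [hRM] at hpN
  have hHj : ∀ j, 2 * M ≤ H * 2 ^ j := fun j => by
    have : H * 1 ≤ H * 2 ^ j := Nat.mul_le_mul_left _ Nat.one_le_two_pow
    omega
  have hRi : ∀ i, 2 * M ≤ 2 ^ (R + i) := fun i => by
    rw [← hRM]; exact Nat.pow_le_pow_right (by norm_num) (by omega)
  have hB0N := bits_Nr ht0 ht1 (fun i => 2 ^ (2 ^ (R + i)) + 1) (2 ^ R) v 8 (fun i _ => by
    have := Nr.pow_add_one (hRi i)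
    rw [pow_add] at this
    rw [pow_add]; exact this)
  have hFN := bits_Nr ht0 ht1 (fun j => fl (H * 2 ^ j)) (10 * H) z M (fun j _ => by
    have := Nr.fl (hHj j)
    rw [← mul_assoc] at this; exact this)
  rw [Nat.mod_eq_of_lt hzM] at hFN
  rw [Nat.mod_eq_of_lt (show v < 2 ^ 8 by omega)] at hB0N
  have hB0M := bits_modEq_one (m := 2 ^ M) (fun i => 2 ^ (2 ^ (R + i)) + 1) v 8
    (fun i _ => X_modEq (by have := hRi i; omega))
  have hFM := bits_modEq_one (m := 2 ^ M) (fun j => fl (H * 2 ^ j)) z M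
    (fun j _ => fl_modEq_two (by have := hHj j; omega))
  have hF11 := bits_modEq_one (m := 11 ^ (2 * k + 1)) (fun j => fl (H * 2 ^ j)) z M
    (fun j _ => by have := fl_modEq_one (2 * k) j; rw [← hH] at this; exact this)
  have hB0d := (bits_dvd (fun i => 2 ^ (2 ^ (R + i)) + 1) v 8).trans
    (Finset.prod_dvd_prod_of_subset _ _ _ (Finset.range_subset_range.mpr (show 8 ≤ M - R by omega)))
  have hFd := bits_dvd (fun j => fl (H * 2 ^ j)) z M
  generalize hB0 : bits (fun i => 2 ^ (2 ^ (R + i)) + 1) v 8 = B0 at *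
  generalize hF : bits (fun j => fl (H * 2 ^ j)) z M = F at *
  refine ⟨u * B0 * p * F, eu + 2 ^ R * v + e + 10 * H * z, ?_, ?_, ?_, ?_, ?_⟩
  · rw [← hz]
    have : 2 ^ R * 578 * (H - 1) ≤ 2 ^ R * 578 * H := Nat.mul_le_mul_left _ (Nat.sub_le _ _)
    rw [← hH] at hD1
    omega
  · have : 2 ^ R * 578 * (H - 1) < 2 ^ R * 578 * H := by
      apply Nat.mul_lt_mul_of_pos_left (by omega)
      positivity
    rw [← hH] at hD1
    omega
  · have := ((huN.mul ht0 ht1 hB0N).mul ht0 ht1 hpN).mul ht0 ht1 hFN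
    apply this.add ht0 ht1
    have h3 : M < 2 ^ M := Nat.lt_two_pow_self
    have h4 : M - 12 < 2 ^ (M - 12) := Nat.lt_two_pow_self
    have h5 : 2 ^ (M - 2) = 2 ^ 10 * 2 ^ (M - 12) := by
      rw [← pow_add]; congr 1; omega
    rw [h5]
    omega
  · have hLM : R + (M - R) = M := by omega
    have hprod : ∏ j ∈ Finset.range M, (2 ^ (H * 2 ^ j) + 1) =
        (∏ j ∈ Finset.range r, (2 ^ (H * 2 ^ j) + 1)) * (2 ^ (H * 2 ^ r) + 1) *
        ∏ i ∈ Finset.range (M - R), (2 ^ (H * 2 ^ (R + i)) + 1) := by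
      conv_lhs => rw [← hLM]
      rw [Finset.prod_range_add, ← hrR, Finset.prod_range_succ]
    have hd1 : u * s * (B0 * p) ∣ ∏ j ∈ Finset.range M, (2 ^ (H * 2 ^ j) + 1) := by
      rw [hprod]
      apply mul_dvd_mul
      · apply mul_dvd_mul
        · exact hud.trans (Finset.dvd_prod_of_mem (fun j => 2 ^ (H * 2 ^ j) + 1)
            (Finset.mem_range.mpr hr0))
        · exact hsd
      · exact (mul_dvd_mul_right hB0d p).trans hpd
    have hd2 := (mul_dvd_mul hd1 hFd).trans ((TT_step H (Finset.range M)).dvd.trans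
      (TT_dvd (11 * H) M))
    have e1 : s * (u * B0 * p * F) = u * s * (B0 * p) * F := by ring
    have e2 : 11 ^ (2 * k + 1) = 11 * H := by rw [hH]; ring
    rw [e1, e2]
    exact hd2
  · have hm1 : s * (u * B0 * p * F) ≡ 1 [MOD 11 ^ (2 * k + 1)] := by
      have := hp11.mul hF11
      have e1 : s * (u * B0 * p * F) = u * s * B0 * p * F := by ring
      rw [e1]; simpa using this
    have hm2 : s * (u * B0 * p * F) ≡ 1 [MOD 2 ^ M] := by
      have := hsM.mul (((huM.mul hB0M).mul hpM).mul hFM)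
      simpa using this
    have hcop : Nat.Coprime (11 ^ (2 * k + 1)) (2 ^ M) :=
      Nat.Coprime.pow _ _ (by norm_num)
    have hm3 := (Nat.modEq_and_modEq_iff_modEq_mul hcop).mp ⟨hm1, hm2⟩
    have hpos : 1 ≤ s * (u * B0 * p * F) := by
      rcases Nat.eq_zero_or_pos (s * (u * B0 * p * F)) with h | h
      · exfalso
        rw [h] at hm2
        have h3 : 2 ^ M ∣ 1 := (Nat.modEq_iff_dvd' (Nat.zero_le 1)).mp hm2
        have h4 := Nat.le_of_dvd (by norm_num) h3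
        have h5 : M < 2 ^ M := Nat.lt_two_pow_self
        omega
      · exact h
    exact (Nat.modEq_iff_dvd' hpos).mp hm3.symm

theorem Q_family {k E : ℕ} (hk : 1 ≤ k) (h1 : 580 * 2 ^ (4 * k + 2) * 121 ^ k ≤ E)
    (h2 : E < 580 * 2 ^ (4 * k + 6) * 121 ^ (k + 1)) : Q E := by
  have hb1 := pow_bound k hk
  have hP : 4 ≤ 2 ^ (4 * k + 1) := by omega
  have hRM : 2 ^ (4 * k + 2) = 2 * 2 ^ (4 * k + 1) := by ring
  have h2e : 2 ∣ 2 ^ (4 * k + 1) := ⟨2 ^ (4 * k), by ring⟩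
  have hH := h11_spec (4 * k)
  have hX5 : 2 ^ 2 ^ (4 * k + 1) + 1 ≡ 5 [MOD 11] := by
    have h3 : h11 (4 * k + 1) = 4 := by
      have h3 : (4 * k + 1) % 4 = 1 % 4 := by omega
      rw [h11_mod _ _ h3]; rfl
    have h4 : 2 ^ 2 ^ (4 * k + 1) ≡ 4 [MOD 11] := by
      show 2 ^ 2 ^ (4 * k + 1) % 11 = 4 % 11
      rw [hH, h3]
    exact h4.add_right 1
  have hdA : 2 ^ 2 ^ (4 * k + 1) + 1 ∣ 2 ^ (11 ^ (2 * k) * 2 ^ (4 * k + 1)) + 1 := by
    have := Odd.nat_add_dvd_pow_add_pow (2 ^ 2 ^ (4 * k + 1)) 1 (n := 11 ^ (2 * k))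
      (Odd.pow (by decide))
    rw [one_pow, ← pow_mul, mul_comm (2 ^ (4 * k + 1))] at this
    exact this
  have hdB : fl (2 ^ (4 * k + 1)) ∣ 2 ^ (11 ^ (2 * k) * 2 ^ (4 * k + 1)) + 1 := by
    have h3 : fl (2 ^ (4 * k + 1)) ∣ 2 ^ (11 * 2 ^ (4 * k + 1)) + 1 :=
      Dvd.intro _ (fl_mul _)
    refine h3.trans ?_
    have := Odd.nat_add_dvd_pow_add_pow (2 ^ (11 * 2 ^ (4 * k + 1))) 1 (n := 11 ^ (2 * k - 1))
      (Odd.pow (by decide))
    rw [one_pow, ← pow_mul] at this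
    have e1 : 11 * 2 ^ (4 * k + 1) * 11 ^ (2 * k - 1) = 11 ^ (2 * k) * 2 ^ (4 * k + 1) := by
      have : 11 ^ (2 * k) = 11 * 11 ^ (2 * k - 1) := by
        rw [← pow_succ']; congr 1; omega
      rw [this]; ring
    rwa [e1] at this
  have hs1 : 1 < 2 ^ 2 ^ (4 * k + 1) + 1 := by
    have : 0 < 2 ^ 2 ^ (4 * k + 1) := by positivity
    omega
  constructor
  · obtain ⟨w, e, he, he1, hN, hd, hm⟩ := family_core (s := fl (2 ^ (4 * k + 1)))
      (es := 10 * 2 ^ (4 * k + 1)) (rs := 1) hk h1 h2 (by rw [hRM]; omega)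
      (Dvd.dvd.mul_left h2e 10)
      (by have := fl_modEq_one 0 (4 * k + 1); simpa using this) (Or.inr rfl)
      (fl_modEq_two le_rfl) hdB
    obtain ⟨⟨f1, f2⟩, f3, f4⟩ := finish hP le_rfl hN
    rw [he] at f3 f4
    have hw1 : 1 < w := by
      by_contra hc
      have hw : w ≤ 1 := by omega
      have : 2 ^ (2 ^ (4 * k + 1) + e) < (2 ^ 2 ^ (4 * k + 1) + 1) * 1 :=
        lt_of_lt_of_le f1 (Nat.mul_le_mul_left _ hw)
      have h3 : 2 ^ (2 ^ (4 * k + 1) + 1) ≤ 2 ^ (2 ^ (4 * k + 1) + e) :=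
        Nat.pow_le_pow_right (by norm_num) (by omega)
      rw [pow_succ] at h3
      omega
    have hfl1 : 1 < fl (2 ^ (4 * k + 1)) := by
      by_contra hc
      have h3 := fl_mul (2 ^ (4 * k + 1))
      have h4 : fl (2 ^ (4 * k + 1)) * (2 ^ 2 ^ (4 * k + 1) + 1) ≤
        1 * (2 ^ 2 ^ (4 * k + 1) + 1) := Nat.mul_le_mul_right _ (by omega)
      have h5 : 2 ^ 2 ^ (4 * k + 1) < 2 ^ (11 * 2 ^ (4 * k + 1)) :=
        Nat.pow_lt_pow_right (by norm_num) (by omega)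
      omega
    exact ⟨_, fermatPsp_of hfl1 hw1 hd hm, f3, f4⟩
  · obtain ⟨w, e, he, he1, hN, hd, hm⟩ := family_core (s := 2 ^ 2 ^ (4 * k + 1) + 1)
      (es := 2 ^ (4 * k + 1)) (rs := 5) hk h1 h2 (by rw [hRM]; omega) h2e hX5 (Or.inl rfl)
      (X_modEq le_rfl) hdA
    obtain ⟨⟨f1, f2⟩, f3, f4⟩ := finish hP le_rfl hN
    have hw1 : 1 < w := by
      by_contra hc
      have hw : w ≤ 1 := by omega
      have : 2 ^ (2 ^ (4 * k + 1) + e) < (2 ^ 2 ^ (4 * k + 1) + 1) * 1 :=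
        lt_of_lt_of_le f1 (Nat.mul_le_mul_left _ hw)
      have h3 : 2 ^ (2 ^ (4 * k + 1) + 1) ≤ 2 ^ (2 ^ (4 * k + 1) + e) :=
        Nat.pow_le_pow_right (by norm_num) (by omega)
      rw [pow_succ] at h3
      omega
    rw [he] at f1 f2
    exact ⟨_, fermatPsp_of hs1 hw1 hd hm, f1, f2⟩

/-- `Q E` for all `E ≥ 580 * 64 * 121` -/
theorem Q_large {E : ℕ} (h : 580 * 64 * 121 ≤ E) : Q E := by
  have key : ∀ k : ℕ, ∀ E : ℕ, 580 * 64 * 121 ≤ E →
      E < 580 * 2 ^ (4 * k + 6) * 121 ^ (k + 1) → Q E := by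
    intro k
    induction k with
    | zero =>
      intro E hE1 hE2
      exfalso
      norm_num at hE2
      omega
    | succ k ih =>
      intro E hE1 hE2
      by_cases hc : E < 580 * 2 ^ (4 * k + 6) * 121 ^ (k + 1)
      · exact ih E hE1 hc
      · push Not at hc
        exact Q_family (k := k + 1) (by omega) hc hE2
  apply key E E h
  have h1 : E < 2 ^ E := Nat.lt_two_pow_self
  have h2 : 2 ^ E ≤ 2 ^ (4 * E + 6) := Nat.pow_le_pow_right (by norm_num) (by omega)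
  have h3 : 0 < 121 ^ (E + 1) := by positivity
  calc E < 2 ^ (4 * E + 6) := by omega
    _ ≤ 580 * 2 ^ (4 * E + 6) := by omega
    _ ≤ 580 * 2 ^ (4 * E + 6) * 121 ^ (E + 1) := Nat.le_mul_of_pos_right _ h3

end Pool.Agent.Helper95.Psp
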