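import Mathlib
import Pool.Agent.Helper95.PspAtoms

set_option autoImplicit false

namespace Pool.Agent.Helper95.Psp

theorem bp_dvd (l : List ℕ) : ∀ z acc : ℕ, bp l z acc ∣ l.prod * acc := by
  induction l with
  | nil => intro z acc; show acc ∣ _; simp
  | cons a l ih =>
    intro z acc
    have h' : bp (a :: l) z acc =
      bp l (z / 2) (@Nat.rec (fun _ => ℕ) acc (fun _ _ => a * acc) (z % 2)) := rfl
    rw [h', List.prod_cons]
    rcases Nat.mod_two_eq_zero_or_one z with hz | hz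
    · rw [hz]
      refine (ih (z / 2) acc).trans ?_
      exact ⟨a, by ring⟩
    · rw [hz]
      refine (ih (z / 2) (a * acc)).trans ?_
      exact dvd_of_eq (by ring)

theorem split_sound' (l : List ℕ) : ∀ (z : ℕ) (k : ℕ → ℕ → Bool), split l z k = true →
    ∃ a p, a * p ∣ l.prod ∧ k a p = true := by
  induction l with
  | nil => intro z k h; exact absurd h (by simp [split])
  | cons a l ih =>
    intro z k h
    have h' : (@Nat.rec (fun _ => Bool) (split l (z / 2) k) (fun _ _ => k a (bp l (z / 2) 1))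
      (z % 2)) = true := h
    rcases Nat.mod_two_eq_zero_or_one z with hz | hz
    · rw [hz] at h'
      obtain ⟨b, p, hb, hk⟩ := ih _ _ h'
      exact ⟨b, p, hb.trans (by rw [List.prod_cons]; exact Dvd.intro_left _ rfl), hk⟩
    · rw [hz] at h'
      refine ⟨_, _, ?_, h'⟩
      rw [List.prod_cons]
      have := bp_dvd l (z / 2) 1
      rw [mul_one] at this
      exact mul_dvd_mul_left a this

/-- the atoms of the middle-range construction (`H = 121`, `16` levels) -/
def tabB : List ℕ := [2 ^ 121 + 1, 2 ^ 22 + 1, 2 ^ 44 + 1, 2 ^ 88 + 1,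
  2 ^ 16 + 1, 2 ^ 32 + 1, 2 ^ 64 + 1, 2 ^ 128 + 1, 2 ^ 256 + 1, 2 ^ 512 + 1, 2 ^ 1024 + 1,
  2 ^ 2048 + 1, 2 ^ 4096 + 1, 2 ^ 8192 + 1, 2 ^ 16384 + 1,
  (2 ^ 176 + 1) / (2 ^ 16 + 1), (2 ^ 352 + 1) / (2 ^ 32 + 1), (2 ^ 704 + 1) / (2 ^ 64 + 1),
  (2 ^ 1408 + 1) / (2 ^ 128 + 1), (2 ^ 2816 + 1) / (2 ^ 256 + 1),
  (2 ^ 5632 + 1) / (2 ^ 512 + 1), (2 ^ 11264 + 1) / (2 ^ 1024 + 1),
  (2 ^ 22528 + 1) / (2 ^ 2048 + 1)]

noncomputable def chkB (k : ℕ → ℕ → ℕ → Bool) (zs : List (ℕ × ℕ)) : ℕ → Bool :=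
  @List.rec (ℕ × ℕ) (fun _ => ℕ → Bool) (fun _ => true)
   (fun z _ ih c => Nat.beq (z.2 % 220) c && (Nat.ble z.2 17893 &&
     (split tabB z.1 (k z.2) && ih (c + 1)))) zs

theorem chkB_sound (k : ℕ → ℕ → ℕ → Bool) (zs : List (ℕ × ℕ)) :
    ∀ c : ℕ, chkB k zs c = true → ∀ i < zs.length, ∃ E a p : ℕ, E % 220 = c + i ∧ E ≤ 17893 ∧
      a * p ∣ tabB.prod ∧ k E a p = true := by
  induction zs with
  | nil => intro c _ i hi; exact absurd hi (by simp)
  | cons z zs ih =>
    intro c h i hi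
    have h' : (Nat.beq (z.2 % 220) c && (Nat.ble z.2 17893 &&
     (split tabB z.1 (k z.2) && chkB k zs (c + 1)))) = true := h
    simp only [Bool.and_eq_true, Nat.ble_eq, Nat.beq_eq] at h'
    obtain ⟨h1, h2, h3, h4⟩ := h'
    rcases i with _ | i
    · obtain ⟨a, p, hd, hk⟩ := split_sound' tabB z.1 _ h3
      exact ⟨z.2, a, p, by simpa using h1, h2, hd, hk⟩
    · obtain ⟨E, a, p, h5, h6⟩ := ih (c + 1) h4 i (by simpa using hi)
      exact ⟨E, a, p, by omega, h6⟩

noncomputable def okP (E a p : ℕ) : Bool :=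
  Nat.blt 1 a && (Nat.blt 1 p && (Nat.beq (a * p % (121 * 65536)) 1 &&
    (Nat.ble ((2 ^ 17 + 1) * 2 ^ E) (2 ^ 17 * (a * p)) && Nat.ble (8 * (a * p)) (9 * 2 ^ E))))

noncomputable def okM (E a p : ℕ) : Bool :=
  Nat.blt 1 a && (Nat.blt 1 p && (Nat.beq (a * p % (121 * 65536)) 1 &&
    (Nat.ble (2 ^ 17 * (a * p)) ((2 ^ 17 - 1) * 2 ^ E) && Nat.ble (7 * 2 ^ E) (8 * (a * p)))))

def dataP : List (ℕ × ℕ) := [(263164, 2420), (133393, 3081), (207390, 11882), (330043, 4183), (852792, 5064),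
  (329265, 3305), (724062, 6826), (1184055, 10347), (199096, 3528), (249, 449), (525458, 3750),
  (67167, 2211), (332572, 6612), (983993, 5953), (531322, 9694), (7795, 7935), (530904, 9256),
  (396573, 5517), (726494, 9258), (590043, 3319), (134192, 3760), (69657, 4641), (788054, 5522),
  (1114455, 5963), (824, 904), (919089, 6185), (134358, 3986), (267571, 6847), (1055764, 12348),
  (67645, 2669), (990, 1130), (656991, 5091), (70008, 4872), (132025, 1793), (590618, 3774),
  (67091, 2015), (1710492, 14996), (1120349, 11917), (8818, 8838), (1769631, 9059),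
  (788532, 5980), (70077, 5101), (1115254, 6642), (721819, 4663), (461616, 5104),
  (262769, 2025), (67442, 2246), (8887, 9067), (67024, 1808), (263353, 2689), (67666, 2470),
  (525559, 4011), (528700, 7092), (5173, 5333), (914, 934), (67511, 2475), (75572, 10396),
  (1120049, 11497), (1188406, 14578), (67735, 2699), (590484, 3580), (659901, 7981),
  (70098, 4902), (787795, 5343), (1051440, 7984), (1442357, 7765), (526134, 4466),
  (207415, 11947), (525716, 4028), (266233, 5569), (68086, 2930), (724087, 6891),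
  (333112, 7112), (8053, 8213), (199442, 3814), (595, 735), (984796, 6676), (590301, 3597),
  (333278, 7338), (1179, 1399), (398076, 6900), (464313, 8001), (66298, 1182), (269307, 8663),
  (987704, 9544), (8725, 8885), (920670, 7786), (140859, 10647), (395704, 4488), (525397, 3829),
  (1530, 1630), (263775, 3171), (137524, 7132), (67349, 2293), (12314, 12414), (1015, 1195),
  (132828, 2516), (922421, 9557), (985498, 7358), (590643, 3839), (722456, 5160),
  (590225, 3401), (524990, 3402), (328603, 2743), (135736, 5384), (593629, 6925),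
  (1180534, 6706), (70423, 5387), (67924, 2748), (264253, 3629), (393246, 2090), (202139, 6711),
  (266616, 5832), (657173, 5173), (787226, 4734), (263699, 2975), (1773148, 12436),
  (199125, 3637), (133530, 3198), (200127, 4739), (66136, 1000), (266685, 6061), (329402, 3422),
  (918427, 5623), (723100, 5844), (402961, 11785), (264050, 3206), (660247, 8267), (1368, 1448),
  (66205, 1229), (264274, 3430), (330871, 4971), (853620, 5852), (853, 1013), (135826, 5414),
  (1855, 2115), (199924, 4316), (1437, 1677), (1380094, 10698), (2079, 2339), (66556, 1460),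
  (722557, 5421), (133814, 3442), (524731, 3223), (532792, 11144), (9265, 9385), (661046, 8946),
  (464659, 8287), (331028, 4988), (656029, 4109), (2430, 2570), (4511, 4771), (1652, 1692),
  (1769845, 9173), (396050, 4774), (787327, 4995), (2231900, 14676), (199965, 4557),
  (1969918, 13578), (133631, 3459), (524528, 2800), (132853, 2581), (262906, 2142),
  (723259, 6103), (66480, 1264), (722481, 5225), (4726, 4786), (70963, 5887), (4308, 4348),
  (460441, 4129), (5310, 5450), (722647, 5451), (593936, 6992), (263957, 3253), (2354, 2374),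
  (393271, 2155), (787708, 5236), (985437, 7437), (1120410, 11838), (787251, 4799),
  (133652, 3260), (524569, 3041), (330302, 4362), (133555, 3263), (329884, 3924), (66161, 1065),
  (795478, 12946), (267031, 6347), (264532, 3708), (66745, 1729), (265534, 4810),
  (461503, 5251), (136084, 5692), (1393, 1513), (332734, 6794), (396151, 5035), (986236, 8116),
  (133469, 3277), (1318238, 14058), (396735, 5699), (262744, 1960), (329341, 3501),
  (920126, 7242), (591187, 4383), (919708, 6804), (524853, 3285), (525534, 3946), (4467, 4607),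
  (5148, 5268), (262813, 2189), (67486, 2410), (1051327, 8131), (1120024, 11432),
  (135765, 5493), (528442, 6814), (136767, 6595), (134268, 3956), (136349, 6157),
  (75314, 10118), (1120511, 12099)]

def dataM : List (ℕ × ℕ) := [(33668, 1100), (231397, 3301), (165802, 2862), (232039, 3963), (2722188, 15844),
  (231621, 3525), (166026, 3086), (232623, 4627), (102852, 5068), (820549, 5509),
  (103854, 6170), (167271, 4411), (690020, 5292), (1414057, 12113), (296546, 3094),
  (491815, 2875), (33864, 1336), (830157, 15197), (428622, 4858), (494859, 5959),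
  (232196, 3980), (33349, 901), (820142, 5082), (34351, 2003), (430888, 7064), (33933, 1565),
  (693094, 8386), (1018095, 7507), (99052, 1348), (1148809, 7729), (36938, 4430),
  (557227, 3111), (565288, 11032), (173613, 10813), (1476134, 8834), (1081639, 5755),
  (34284, 1796), (1157357, 16317), (34926, 2458), (37007, 4659), (165640, 2680),
  (1802341, 9061), (428546, 4662), (819823, 4883), (1018252, 7524), (623397, 4005),
  (624078, 4666), (166127, 3347), (688876, 4228), (361357, 2909), (37358, 4890), (560107, 5991),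
  (98976, 1152), (234309, 6213), (168714, 5774), (103459, 5775), (232812, 4676), (234893, 6877),
  (369866, 11278), (297231, 4019), (34208, 1600), (296453, 3141), (34850, 2262), (758187, 8423),
  (166284, 3364), (1017933, 7325), (956198, 10626), (819747, 4687), (362156, 3588),
  (98793, 1169), (624002, 4470), (166051, 3151), (296804, 3372), (1224229, 17893),
  (37282, 4694), (299527, 6235), (297028, 3596), (105921, 8217), (298030, 4698), (431243, 7559),
  (557416, 3160), (33889, 1401), (886598, 6242), (428647, 4923), (629896, 10424),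
  (165965, 3165), (232902, 4706), (429231, 5587), (37196, 4708), (557485, 3389), (300462, 7130),
  (623683, 4271), (889088, 8672), (497413, 8453), (235810, 7574), (36963, 4495),
  (1021164, 10436), (102121, 4497), (99982, 2298), (302991, 9779), (428804, 4940),
  (1213477, 7141), (34630, 2082), (565479, 11323), (2002312, 13304), (165665, 2745),
  (2723150, 16826), (107431, 9787), (295660, 2308), (165889, 2969), (557506, 3190),
  (165831, 2971), (37120, 4512), (103717, 6053), (370542, 11994), (755459, 5615),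
  (231592, 3416), (560813, 6717), (689806, 5178), (168739, 5839), (35108, 2540), (168321, 5401),
  (563818, 9582), (364971, 6503), (563400, 9144), (820005, 4965), (820686, 5626),
  (697255, 12667), (494188, 5188), (166309, 3429), (624902, 5410), (1146951, 5851),
  (33320, 792), (430917, 7173), (823594, 8494), (99139, 1455), (429420, 5636), (431501, 7837),
  (33486, 1018), (99723, 2119), (102504, 4760), (164521, 1681), (623114, 3662), (954795, 9383),
  (1742988, 14884), (107269, 9605), (1019214, 8506), (239403, 11367), (1084012, 8068),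
  (295401, 2129), (558346, 4110), (362319, 3891), (494112, 4992), (37221, 4773), (99938, 2134),
  (557831, 3675), (99520, 1696), (40265, 7857), (232014, 3898), (689547, 4999), (429344, 5440),
  (364809, 6321), (33410, 822), (100007, 2363), (234280, 6104), (1152545, 11385),
  (167246, 4346), (303619, 10287), (1350916, 14028), (362797, 4349), (491790, 2810),
  (820291, 5231), (1083936, 7872), (239269, 11173), (558630, 4354), (362243, 3695),
  (558212, 3916), (298729, 5457), (100582, 2818), (33227, 839), (231296, 3040), (40549, 8101),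
  (231938, 3702), (623215, 3923), (1086368, 10304), (622797, 3485), (365774, 7226),
  (888523, 8327), (1347116, 10308), (952621, 7229), (167170, 4150), (558447, 4371),
  (828772, 13612), (300325, 7013), (234370, 6134), (952067, 6575), (428200, 4376),
  (1478317, 11197), (34026, 1518), (100623, 3059), (623372, 3940), (99845, 2181),
  (232358, 4162), (33511, 1083), (41572, 9004), (954917, 9445), (1017994, 7246), (623139, 3727),
  (301960, 8568), (622721, 3289), (103434, 5710), (361099, 2631), (100196, 2412),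
  (172773, 9893), (1213030, 6594), (295747, 2415), (100420, 2636), (44685, 12317),
  (101422, 3738), (296331, 3079)]

theorem dataP_ok : chkB okP dataP 0 = true := by decide +kernel

theorem dataM_ok : chkB okM dataM 0 = true := by decide +kernel

theorem coreP {c : ℕ} (hc : c < 220) : ∃ E a p : ℕ, E % 220 = c ∧ E ≤ 17893 ∧
    a * p ∣ tabB.prod ∧ 1 < a ∧ 1 < p ∧ a * p % (121 * 65536) = 1 ∧
    (2 ^ 17 + 1) * 2 ^ E ≤ 2 ^ 17 * (a * p) ∧ 8 * (a * p) ≤ 9 * 2 ^ E := by
  obtain ⟨E, a, p, h1, h2, h3, h4⟩ := chkB_sound okP dataP 0 dataP_ok c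
    (lt_of_lt_of_eq hc (by decide +kernel))
  rw [okP] at h4
  simp only [Bool.and_eq_true, Nat.ble_eq, Nat.blt_eq, Nat.beq_eq] at h4
  exact ⟨E, a, p, by omega, h2, h3, h4⟩

theorem coreM {c : ℕ} (hc : c < 220) : ∃ E a p : ℕ, E % 220 = c ∧ E ≤ 17893 ∧
    a * p ∣ tabB.prod ∧ 1 < a ∧ 1 < p ∧ a * p % (121 * 65536) = 1 ∧
    2 ^ 17 * (a * p) ≤ (2 ^ 17 - 1) * 2 ^ E ∧ 7 * 2 ^ E ≤ 8 * (a * p) := by
  obtain ⟨E, a, p, h1, h2, h3, h4⟩ := chkB_sound okM dataM 0 dataM_ok c
    (lt_of_lt_of_eq hc (by decide +kernel))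
  rw [okM] at h4
  simp only [Bool.and_eq_true, Nat.ble_eq, Nat.blt_eq, Nat.beq_eq] at h4
  exact ⟨E, a, p, by omega, h2, h3, h4⟩

theorem tabB_dvd : tabB.prod ∣
    (2 ^ 121 + 1) * ∏ i ∈ Finset.range 15, (2 ^ (11 * 2 ^ (i + 1)) + 1) := by
  simp only [Finset.prod_range_succ, Finset.prod_range_zero, one_mul]
  apply Nat.dvd_of_mod_eq_zero
  decide +kernel

theorem coreB {E E' a p : ℕ} (hE : 17674 ≤ E) (hE2 : E < 580 * 64 * 121)
    (hEE : E' % 220 = E % 220) (hE' : E' ≤ 17893) (hd : a * p ∣ tabB.prod) (ha : 1 < a)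
    (hp : 1 < p) (hmod : a * p % (121 * 65536) = 1) :
    ∃ F f : ℕ, E' + f = E ∧ Nat.FermatPsp (a * p * F) 2 ∧
      (1 - (1 / 2 : ℝ) ^ 18) * 2 ^ f ≤ F ∧ (F : ℝ) * (1 - (1 / 2 : ℝ) ^ 18) ≤ 2 ^ f := by
  obtain ⟨q, hq⟩ : ∃ q, E = E' + 220 * q := ⟨(E - E') / 220, by omega⟩
  have hq15 : q < 2 ^ 15 := by omega
  have ht0 : (0 : ℝ) ≤ (1 / 2 : ℝ) ^ 22 := by positivity
  have ht1 : (1 / 2 : ℝ) ^ 22 ≤ 1 := pow_le_one₀ (by norm_num) (by norm_num)
  have h22 : ∀ i, 22 ≤ 11 * 2 ^ (i + 1) := fun i => by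
    have : 2 ^ 1 ≤ 2 ^ (i + 1) := Nat.pow_le_pow_right (by norm_num) (by omega)
    omega
  have hN := bits_Nr ht0 ht1 (fun i => fl (11 * 2 ^ (i + 1))) 220 q 15 (fun i _ => by
    have := Nr.fl (h22 i)
    have e1 : 220 * 2 ^ i = 10 * (11 * 2 ^ (i + 1)) := by ring
    rw [e1]; exact this)
  rw [Nat.mod_eq_of_lt hq15] at hN
  have hM := bits_modEq_one (m := 2 ^ 16) (fun i => fl (11 * 2 ^ (i + 1))) q 15
    (fun i _ => fl_modEq_two (by have := h22 i; omega))
  have h11 := bits_modEq_one (m := 11 ^ 2) (fun i => fl (11 * 2 ^ (i + 1))) q 15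
    (fun i _ => by have := fl_modEq_one 1 (i + 1); simpa using this)
  have hFd := bits_dvd (fun i => fl (11 * 2 ^ (i + 1))) q 15
  generalize hF : bits (fun i => fl (11 * 2 ^ (i + 1))) q 15 = F at *
  have hcop : Nat.Coprime (11 ^ 2) (2 ^ 16) := Nat.Coprime.pow _ _ (by norm_num)
  have hFm := (Nat.modEq_and_modEq_iff_modEq_mul hcop).mp ⟨h11, hM⟩
  have hF0 : 1 ≤ F := by
    rcases Nat.eq_zero_or_pos F with h | h
    · rw [h] at hM
      exact absurd hM (by decide)
    · exact h
  refine ⟨F, 220 * q, by omega, ?_, ?_, ?_⟩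
  · rw [mul_assoc]
    have hpF : 1 < p * F := by nlinarith
    refine fermatPsp_of (m := 121 * 65536) ha hpF ?_ ?_
    · have h1 := mul_dvd_mul (hd.trans tabB_dvd) hFd
      have h2 : ((2 ^ 121 + 1) * ∏ i ∈ Finset.range 15, (2 ^ (11 * 2 ^ (i + 1)) + 1)) *
          ∏ i ∈ Finset.range 15, fl (11 * 2 ^ (i + 1)) =
          ∏ j ∈ Finset.range 16, (2 ^ (121 * 2 ^ j) + 1) := by
        have hAB : (∏ i ∈ Finset.range 15, (2 ^ (11 * 2 ^ (i + 1)) + 1)) *
            ∏ i ∈ Finset.range 15, fl (11 * 2 ^ (i + 1)) =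
            ∏ i ∈ Finset.range 15, (2 ^ (121 * 2 ^ (i + 1)) + 1) := by
          rw [← Finset.prod_mul_distrib]
          apply Finset.prod_congr rfl
          intro j _
          rw [mul_comm, fl_mul, ← mul_assoc, show 11 * 11 = 121 from rfl]
        have hf0 : 2 ^ (121 * 2 ^ 0) + 1 = 2 ^ 121 + 1 := by rw [pow_zero, mul_one]
        rw [mul_assoc, hAB, Finset.prod_range_succ' (fun j => 2 ^ (121 * 2 ^ j) + 1) 15, hf0,
          mul_comm]
      rw [h2] at h1
      have h3 := h1.trans (TT_dvd 121 16)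
      rw [← mul_assoc]
      have e1 : 121 * 65536 = 121 * 2 ^ 16 := by norm_num
      rw [e1]; exact h3
    · have h1 : a * p ≡ 1 [MOD 11 ^ 2 * 2 ^ 16] := by
        show a * p % (11 ^ 2 * 2 ^ 16) = 1 % (11 ^ 2 * 2 ^ 16)
        norm_num at hmod ⊢
        exact hmod
      have h2 := h1.mul hFm
      rw [← mul_assoc]
      have h3 : 1 ≤ a * p * F := by nlinarith
      have h4 := (Nat.modEq_iff_dvd' h3).mp h2.symm
      have e1 : 121 * 65536 = 11 ^ 2 * 2 ^ 16 := by norm_num
      rw [e1]; exact h4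
  · have h1 := hN.1
    have h2 : (1 - (1 / 2 : ℝ) ^ 18) ≤ (1 - (1 / 2 : ℝ) ^ 22) ^ 15 := by norm_num
    exact (mul_le_mul_of_nonneg_right h2 (by positivity)).trans h1
  · have h1 := hN.2
    have h2 : (1 + (1 / 2 : ℝ) ^ 22) ^ 15 * (1 - (1 / 2 : ℝ) ^ 18) ≤ 1 := by norm_num
    have h3 : (0 : ℝ) < 2 ^ (220 * q) := by positivity
    have h4 : (0 : ℝ) < 1 - (1 / 2 : ℝ) ^ 18 := by norm_num
    calc (F : ℝ) * (1 - (1 / 2 : ℝ) ^ 18) ≤
        ((1 + (1 / 2 : ℝ) ^ 22) ^ 15 * 2 ^ (220 * q)) * (1 - (1 / 2 : ℝ) ^ 18) :=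
          mul_le_mul_of_nonneg_right h1 h4.le
      _ = ((1 + (1 / 2 : ℝ) ^ 22) ^ 15 * (1 - (1 / 2 : ℝ) ^ 18)) * 2 ^ (220 * q) := by ring
      _ ≤ 1 * 2 ^ (220 * q) := mul_le_mul_of_nonneg_right h2 h3.le
      _ = _ := one_mul _

theorem Q_middle {E : ℕ} (hE : 17674 ≤ E) (hE2 : E < 580 * 64 * 121) : Q E := by
  have hc : E % 220 < 220 := Nat.mod_lt _ (by norm_num)
  constructor
  · obtain ⟨E', a, p, h1, h2, h3, h4, h5, h6, h7, h8⟩ := coreM hc
    obtain ⟨F, f, hf, hpsp, hF1, hF2⟩ := coreB hE hE2 h1 h2 h3 h4 h5 h6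
    refine ⟨a * p * F, hpsp, ?_, ?_⟩
    · have h8' : 7 * (2 : ℝ) ^ E' ≤ 8 * ((a * p : ℕ) : ℝ) := by exact_mod_cast h8
      have hE'p : (0 : ℝ) < 2 ^ E' := by positivity
      have hfp : (0 : ℝ) < 2 ^ f := by positivity
      have : 3 * (2 : ℝ) ^ E < 4 * ((a * p : ℕ) * F) := by
        rw [← hf, pow_add]
        calc 3 * ((2 : ℝ) ^ E' * 2 ^ f) < (7 / 2 * (1 - (1 / 2 : ℝ) ^ 18)) * (2 ^ E' * 2 ^ f) := by
              apply mul_lt_mul_of_pos_right (by norm_num) (by positivity)
          _ = (7 / 2 * 2 ^ E') * ((1 - (1 / 2 : ℝ) ^ 18) * 2 ^ f) := by ring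
          _ ≤ (4 * ((a * p : ℕ) : ℝ)) * F := by
              apply mul_le_mul (by linarith) hF1
                (mul_nonneg (by norm_num) hfp.le) (by positivity)
          _ = _ := by ring
      exact_mod_cast this
    · have h7' : (2 : ℝ) ^ 17 * ((a * p : ℕ) : ℝ) ≤ (2 ^ 17 - 1) * 2 ^ E' := by
        have : ((2 ^ 17 * (a * p) : ℕ) : ℝ) ≤ (((2 ^ 17 - 1) * 2 ^ E' : ℕ) : ℝ) := by
          exact_mod_cast h7
        push_cast at this ⊢
        norm_num at this ⊢
        exact this
      have hfp : (0 : ℝ) < 2 ^ f := by positivity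
      have : ((a * p : ℕ) : ℝ) * F < 2 ^ E := by
        rw [← hf, pow_add]
        have h4' : (0 : ℝ) < 1 - (1 / 2 : ℝ) ^ 18 := by norm_num
        have hE'p : (0 : ℝ) < 2 ^ E' := by positivity
        have h9 : (((a * p : ℕ) : ℝ) * F) * (2 ^ 17 * (1 - (1 / 2 : ℝ) ^ 18)) <
            (2 ^ E' * 2 ^ f) * (2 ^ 17 * (1 - (1 / 2 : ℝ) ^ 18)) := by
          calc (((a * p : ℕ) : ℝ) * F) * (2 ^ 17 * (1 - (1 / 2 : ℝ) ^ 18)) =
              (2 ^ 17 * ((a * p : ℕ) : ℝ)) * (F * (1 - (1 / 2 : ℝ) ^ 18)) := by ring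
            _ ≤ ((2 ^ 17 - 1) * 2 ^ E') * 2 ^ f := by
                apply mul_le_mul h7' hF2 (mul_nonneg (by positivity) h4'.le) (by positivity)
            _ = (2 ^ 17 - 1) * (2 ^ E' * 2 ^ f) := by ring
            _ < (2 ^ 17 * (1 - (1 / 2 : ℝ) ^ 18)) * (2 ^ E' * 2 ^ f) := by
                apply mul_lt_mul_of_pos_right (by norm_num) (by positivity)
            _ = _ := by ring
        exact lt_of_mul_lt_mul_right h9 (mul_nonneg (by norm_num) h4'.le)
      exact_mod_cast this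
  · obtain ⟨E', a, p, h1, h2, h3, h4, h5, h6, h7, h8⟩ := coreP hc
    obtain ⟨F, f, hf, hpsp, hF1, hF2⟩ := coreB hE hE2 h1 h2 h3 h4 h5 h6
    refine ⟨a * p * F, hpsp, ?_, ?_⟩
    · have h7' : ((2 : ℝ) ^ 17 + 1) * 2 ^ E' ≤ 2 ^ 17 * ((a * p : ℕ) : ℝ) := by exact_mod_cast h7
      have hfp : (0 : ℝ) < 2 ^ f := by positivity
      have h4' : (0 : ℝ) < 1 - (1 / 2 : ℝ) ^ 18 := by norm_num
      have : (2 : ℝ) ^ E < ((a * p : ℕ) : ℝ) * F := by
        rw [← hf, pow_add]
        have h9 : (2 ^ E' * 2 ^ f) * (2 : ℝ) ^ 17 < (((a * p : ℕ) : ℝ) * F) * 2 ^ 17 := by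
          calc (2 ^ E' * 2 ^ f) * (2 : ℝ) ^ 17 <
              (2 ^ E' * 2 ^ f) * (((2 : ℝ) ^ 17 + 1) * (1 - (1 / 2 : ℝ) ^ 18)) := by
                apply mul_lt_mul_of_pos_left (by norm_num) (by positivity)
            _ = (((2 : ℝ) ^ 17 + 1) * 2 ^ E') * ((1 - (1 / 2 : ℝ) ^ 18) * 2 ^ f) := by ring
            _ ≤ (2 ^ 17 * ((a * p : ℕ) : ℝ)) * F := by
                apply mul_le_mul h7' hF1 (mul_nonneg h4'.le hfp.le) (by positivity)
            _ = _ := by ring
        exact lt_of_mul_lt_mul_right h9 (by positivity)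
      exact_mod_cast this
    · have h8' : 8 * ((a * p : ℕ) : ℝ) ≤ 9 * 2 ^ E' := by exact_mod_cast h8
      have hfp : (0 : ℝ) < 2 ^ f := by positivity
      have h4' : (0 : ℝ) < 1 - (1 / 2 : ℝ) ^ 18 := by norm_num
      have : 4 * (((a * p : ℕ) : ℝ) * F) < 5 * 2 ^ E := by
        rw [← hf, pow_add]
        have h9 : (4 * (((a * p : ℕ) : ℝ) * F)) * (2 * (1 - (1 / 2 : ℝ) ^ 18)) <
            (5 * (2 ^ E' * 2 ^ f)) * (2 * (1 - (1 / 2 : ℝ) ^ 18)) := by
          calc (4 * (((a * p : ℕ) : ℝ) * F)) * (2 * (1 - (1 / 2 : ℝ) ^ 18)) =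
              (8 * ((a * p : ℕ) : ℝ)) * (F * (1 - (1 / 2 : ℝ) ^ 18)) := by ring
            _ ≤ (9 * 2 ^ E') * 2 ^ f := by
                apply mul_le_mul h8' hF2 (mul_nonneg (by positivity) h4'.le) (by positivity)
            _ = 9 * (2 ^ E' * 2 ^ f) := by ring
            _ < (5 * (2 * (1 - (1 / 2 : ℝ) ^ 18))) * (2 ^ E' * 2 ^ f) := by
                apply mul_lt_mul_of_pos_right (by norm_num) (by positivity)
            _ = _ := by ring
        exact lt_of_mul_lt_mul_right h9 (mul_nonneg (by norm_num) h4'.le)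
      exact_mod_cast this

end Pool.Agent.Helper95.Psp
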