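import Pool.Agent.Helper25.MD.Defs
import Pool.Agent.MobQ.Defs

set_option autoImplicit false

namespace Pool.Agent.Helper95.MD

open Finset Pool.Agent.Helper25 Pool.Agent.Helper25.MD

/-- unsmoothing a Riesz mean -/
lemma unsmooth (f : ℕ → ℂ) (hf : ∀ n, ‖f n‖ ≤ 1) (u h : ℕ) (hh : 1 ≤ h) :
    ‖∑ n ∈ range u, f n‖ ≤ (‖∑ n ∈ range (u + h), (((u + h : ℕ) : ℂ) - n) * f n‖ +
      ‖∑ n ∈ range u, ((u : ℂ) - n) * f n‖) / h + h := by
  have h0 : (0 : ℝ) < h := by exact_mod_cast hh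
  have e1 : (h : ℂ) * ∑ n ∈ range u, f n = ∑ n ∈ range (u + h), (((u + h : ℕ) : ℂ) - n) * f n -
      ∑ n ∈ range u, ((u : ℂ) - n) * f n -
      ∑ i ∈ range h, ((h : ℂ) - i) * f (u + i) := by
    rw [sum_range_add, add_sub_right_comm, ← sum_sub_distrib, mul_sum]
    have e2 : ∑ i ∈ range h, (((u + h : ℕ) : ℂ) - ((u + i : ℕ) : ℂ)) * f (u + i) =
        ∑ i ∈ range h, ((h : ℂ) - i) * f (u + i) := by
      refine sum_congr rfl fun i _ => ?_
      push_cast
      ring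
    rw [e2, add_sub_cancel_right]
    refine sum_congr rfl fun n _ => ?_
    push_cast
    ring
  have e3 : ‖∑ i ∈ range h, ((h : ℂ) - i) * f (u + i)‖ ≤ h * h := by
    refine (norm_sum_le _ _).trans ?_
    have : ∀ i ∈ range h, ‖((h : ℂ) - i) * f (u + i)‖ ≤ h := by
      intro i hi
      have hi' := mem_range.1 hi
      rw [norm_mul]
      have h1 : ‖(h : ℂ) - i‖ ≤ h := by
        have : (h : ℂ) - i = ((h - i : ℕ) : ℂ) := by
          rw [Nat.cast_sub hi'.le]
        rw [this, Complex.norm_natCast]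
        exact_mod_cast Nat.sub_le h i
      calc ‖(h : ℂ) - i‖ * ‖f (u + i)‖ ≤ h * 1 :=
            mul_le_mul h1 (hf _) (norm_nonneg _) (Nat.cast_nonneg _)
        _ = h := mul_one _
    refine (sum_le_sum this).trans ?_
    rw [sum_const, card_range, nsmul_eq_mul]
  have e4 : (h : ℝ) * ‖∑ n ∈ range u, f n‖ ≤
      ‖∑ n ∈ range (u + h), (((u + h : ℕ) : ℂ) - n) * f n‖ +
      ‖∑ n ∈ range u, ((u : ℂ) - n) * f n‖ + h * h := by
    have : (h : ℝ) * ‖∑ n ∈ range u, f n‖ = ‖(h : ℂ) * ∑ n ∈ range u, f n‖ := by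
      rw [norm_mul, Complex.norm_natCast]
    rw [this, e1]
    refine (norm_sub_le _ _).trans ?_
    have := norm_sub_le (∑ n ∈ range (u + h), (((u + h : ℕ) : ℂ) - n) * f n)
      (∑ n ∈ range u, ((u : ℂ) - n) * f n)
    linarith
  have e5 : (‖∑ n ∈ range (u + h), (((u + h : ℕ) : ℂ) - n) * f n‖ +
      ‖∑ n ∈ range u, ((u : ℂ) - n) * f n‖) / h + h =
      (‖∑ n ∈ range (u + h), (((u + h : ℕ) : ℂ) - n) * f n‖ +
      ‖∑ n ∈ range u, ((u : ℂ) - n) * f n‖ + h * h) / h := by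
    field_simp
  rw [e5, le_div_iff₀ h0]
  linarith

/-- sums twisted by a function supported on units -/
lemma ortho (q : ℕ) [NeZero q] (F : ZMod q → ℂ) (hF : ∀ z, ¬ IsUnit z → F z = 0)
    (hF1 : ∀ z, ‖F z‖ ≤ 1) (s : Finset ℕ) (g : ℕ → ℂ) (M : ℝ)
    (hM : ∀ χ : DirichletCharacter ℂ q, ‖∑ m ∈ s, g m * χ (m : ZMod q)‖ ≤ M) :
    ‖∑ m ∈ s, g m * F (m : ZMod q)‖ ≤ q * M := by
  classical
  have hφ : (0 : ℝ) < (q.totient : ℝ) := by
    exact_mod_cast Nat.totient_pos.2 (Nat.pos_of_ne_zero (NeZero.ne q))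
  have hcard : Fintype.card (DirichletCharacter ℂ q) = q.totient := by
    rw [← Nat.card_eq_fintype_card]
    exact DirichletCharacter.card_eq_totient_of_hasEnoughRootsOfUnity ℂ q
  have e1 : ∀ z : ZMod q, (q.totient : ℂ) * F z =
      ∑ a : ZMod q, F a * ∑ χ : DirichletCharacter ℂ q, χ a⁻¹ * χ z := by
    intro z
    have : ∀ a : ZMod q, F a * ∑ χ : DirichletCharacter ℂ q, χ a⁻¹ * χ z =
        if a = z then F a * (q.totient : ℂ) else 0 := by
      intro a
      by_cases ha : IsUnit a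
      · rw [DirichletCharacter.sum_char_inv_mul_char_eq ℂ ha z]
        split_ifs <;> simp
      · rw [hF a ha]
        simp
    rw [sum_congr rfl (fun a _ => this a)]
    simp [mul_comm]
  have e2 : (q.totient : ℂ) * ∑ m ∈ s, g m * F (m : ZMod q) =
      ∑ a : ZMod q, F a * ∑ χ : DirichletCharacter ℂ q, χ a⁻¹ *
        ∑ m ∈ s, g m * χ (m : ZMod q) := by
    rw [mul_sum]
    have : ∀ m ∈ s, (q.totient : ℂ) * (g m * F (m : ZMod q)) =
        ∑ a : ZMod q, F a * ∑ χ : DirichletCharacter ℂ q, χ a⁻¹ * (g m * χ (m : ZMod q)) := by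
      intro m _
      have h1 : (q.totient : ℂ) * (g m * F (m : ZMod q)) = g m * ((q.totient : ℂ) * F m) := by ring
      rw [h1, e1, mul_sum]
      refine sum_congr rfl fun a _ => ?_
      rw [mul_left_comm, mul_sum]
      congr 1
      refine sum_congr rfl fun χ _ => ?_
      ring
    rw [sum_congr rfl this, sum_comm]
    refine sum_congr rfl fun a _ => ?_
    rw [← mul_sum, sum_comm]
    congr 1
    refine sum_congr rfl fun χ _ => ?_
    rw [mul_sum]
  have hM0 : 0 ≤ M := (norm_nonneg _).trans (hM 1)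
  have e3 : (q.totient : ℝ) * ‖∑ m ∈ s, g m * F (m : ZMod q)‖ ≤ q.totient * (q * M) := by
    have : (q.totient : ℝ) * ‖∑ m ∈ s, g m * F (m : ZMod q)‖ =
        ‖(q.totient : ℂ) * ∑ m ∈ s, g m * F (m : ZMod q)‖ := by
      rw [norm_mul, Complex.norm_natCast]
    rw [this, e2]
    refine (norm_sum_le _ _).trans ?_
    have h2 : ∀ a ∈ (univ : Finset (ZMod q)), ‖F a * ∑ χ : DirichletCharacter ℂ q, χ a⁻¹ *
        ∑ m ∈ s, g m * χ (m : ZMod q)‖ ≤ q.totient * M := by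
      intro a _
      rw [norm_mul]
      have h3 : ‖∑ χ : DirichletCharacter ℂ q, χ a⁻¹ * ∑ m ∈ s, g m * χ (m : ZMod q)‖ ≤
          q.totient * M := by
        refine (norm_sum_le _ _).trans ?_
        have h4 : ∀ χ ∈ (univ : Finset (DirichletCharacter ℂ q)),
            ‖χ a⁻¹ * ∑ m ∈ s, g m * χ (m : ZMod q)‖ ≤ M := by
          intro χ _
          rw [norm_mul]
          calc ‖χ a⁻¹‖ * ‖∑ m ∈ s, g m * χ (m : ZMod q)‖ ≤ 1 * M :=
                mul_le_mul (DirichletCharacter.norm_le_one χ _) (hM χ) (norm_nonneg _) zero_le_one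
            _ = M := one_mul _
        refine (sum_le_sum h4).trans ?_
        rw [sum_const, card_univ, hcard, nsmul_eq_mul]
      calc ‖F a‖ * ‖∑ χ : DirichletCharacter ℂ q, χ a⁻¹ * ∑ m ∈ s, g m * χ (m : ZMod q)‖ ≤
            1 * (q.totient * M) := mul_le_mul (hF1 a) h3 (norm_nonneg _) zero_le_one
        _ = q.totient * M := one_mul _
    refine (sum_le_sum h2).trans ?_
    rw [sum_const, card_univ, ZMod.card, nsmul_eq_mul]
    exact le_of_eq (by ring)
  exact le_of_mul_le_mul_left e3 hφ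

lemma moebius_mul (d m : ℕ) : ArithmeticFunction.moebius (d * m) =
    if d.Coprime m then ArithmeticFunction.moebius d * ArithmeticFunction.moebius m else 0 := by
  split_ifs with h
  · exact ArithmeticFunction.isMultiplicative_moebius.map_mul_of_coprime h
  · apply ArithmeticFunction.moebius_eq_zero_of_not_squarefree
    rw [Nat.squarefree_mul_iff]
    tauto

/-- residue classes reduce to characters -/
lemma reduce (x q b : ℕ) [NeZero q] (M : ℝ)
    (hM : ∀ χ : DirichletCharacter ℂ q,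
      ‖∑ m ∈ Icc 1 (x / Nat.gcd b q), mob m * χ (m : ZMod q)‖ ≤ M) :
    |∑ n ∈ (Icc 1 x).filter (fun n => n % q = b % q), MobQ.mu n| ≤ q * M := by
  have hq0 : 0 < q := Nat.pos_of_ne_zero (NeZero.ne q)
  obtain ⟨d, q', b', hd, hcop, hqq, hbb⟩ : ∃ d q' b' : ℕ, 0 < d ∧ Nat.Coprime b' q' ∧
      q = d * q' ∧ b = d * b' := by
    have hg : 0 < Nat.gcd b q := Nat.gcd_pos_of_pos_right b hq0
    exact ⟨Nat.gcd b q, q / Nat.gcd b q, b / Nat.gcd b q, hg, Nat.coprime_div_gcd_div_gcd hg,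
      (Nat.mul_div_cancel' (Nat.gcd_dvd_right b q)).symm,
      (Nat.mul_div_cancel' (Nat.gcd_dvd_left b q)).symm⟩
  have hgcd : Nat.gcd b q = d := by
    rw [hqq, hbb, Nat.gcd_mul_left, hcop.gcd_eq_one, mul_one]
  rw [hgcd] at hM
  have hdvd : q' ∣ q := Dvd.intro_left d hqq.symm
  classical
  set F : ZMod q → ℂ := fun z => if IsUnit z ∧ ZMod.castHom hdvd (ZMod q') z = (b' : ZMod q')
    then 1 else 0 with hF
  have key := ortho q F (fun z hz => by simp [hF, hz])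
    (fun z => by simp only [hF]; split_ifs <;> simp) (Icc 1 (x / d)) mob M hM
  have e1 : ∑ n ∈ (Icc 1 x).filter (fun n => n % q = b % q), mob n =
      ∑ m ∈ (Icc 1 (x / d)).filter (fun m => m % q' = b' % q'), mob (d * m) := by
    symm
    refine sum_bij (fun m _ => d * m) ?_ ?_ ?_ ?_
    · intro m hm
      rw [mem_filter, mem_Icc] at hm ⊢
      refine ⟨⟨Nat.mul_pos hd hm.1.1, ?_⟩, ?_⟩
      · rw [mul_comm]
        exact (Nat.le_div_iff_mul_le hd).1 hm.1.2
      · rw [hqq, hbb]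
        exact Nat.ModEq.mul_left' d hm.2
    · intro m _ m' _ h
      exact Nat.eq_of_mul_eq_mul_left hd h
    · intro n hn
      rw [mem_filter, mem_Icc] at hn
      have hdn : d ∣ n := by
        have h1 : d ∣ b := Dvd.intro _ hbb.symm
        have h2 : d ∣ q := Dvd.intro _ hqq.symm
        exact (Nat.ModEq.dvd_iff (m := q) hn.2 h2).2 h1
      obtain ⟨m, rfl⟩ := hdn
      refine ⟨m, ?_, rfl⟩
      rw [mem_filter, mem_Icc]
      refine ⟨⟨Nat.pos_of_mul_pos_left hn.1.1, ?_⟩, ?_⟩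
      · rw [Nat.le_div_iff_mul_le hd, mul_comm]
        exact hn.1.2
      · have h3 : d * m ≡ d * b' [MOD d * q'] := by
          rw [← hqq, ← hbb]
          exact hn.2
        exact Nat.ModEq.mul_left_cancel' hd.ne' h3
    · intro m _
      rfl
  have e2 : ∑ m ∈ (Icc 1 (x / d)).filter (fun m => m % q' = b' % q'), mob (d * m) =
      mob d * ∑ m ∈ Icc 1 (x / d), mob m * F (m : ZMod q) := by
    rw [sum_filter, mul_sum]
    refine sum_congr rfl fun m _ => ?_
    have h1 : IsUnit (m : ZMod q) ↔ m.Coprime q := ZMod.isUnit_iff_coprime m q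
    have h2 : ZMod.castHom hdvd (ZMod q') (m : ZMod q) = (b' : ZMod q') ↔ m % q' = b' % q' := by
      rw [map_natCast]
      exact ZMod.natCast_eq_natCast_iff m b' q'
    simp only [hF, h1, h2]
    unfold mob
    rw [moebius_mul]
    by_cases h3 : m % q' = b' % q'
    · have h4 : m.Coprime q ↔ d.Coprime m := by
        rw [hqq, Nat.coprime_mul_iff_right]
        have h5 : m.Coprime q' := by
          have : Nat.gcd m q' = Nat.gcd b' q' := Nat.ModEq.gcd_eq h3
          rw [Nat.Coprime, this]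
          exact hcop
        rw [Nat.coprime_comm (n := d)]
        tauto
      by_cases h6 : d.Coprime m
      · rw [if_pos h3, if_pos h6, if_pos ⟨h4.2 h6, h3⟩]
        push_cast
        ring
      · rw [if_pos h3, if_neg h6, if_neg (fun h => h6 (h4.1 h.1))]
        simp
    · rw [if_neg h3, if_neg (fun h => h3 h.2)]
      simp
  have e3 : |∑ n ∈ (Icc 1 x).filter (fun n => n % q = b % q), MobQ.mu n| =
      ‖∑ n ∈ (Icc 1 x).filter (fun n => n % q = b % q), mob n‖ := by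
    rw [← Real.norm_eq_abs, ← Complex.norm_real]
    congr 1
    push_cast
    refine sum_congr rfl fun n _ => ?_
    unfold MobQ.mu mob
    push_cast
    rfl
  rw [e3, e1, e2, norm_mul]
  have h7 : ‖mob d‖ ≤ 1 := by
    unfold mob
    rw [Complex.norm_intCast]
    exact_mod_cast ArithmeticFunction.abs_moebius_le_one
  calc ‖mob d‖ * ‖∑ m ∈ Icc 1 (x / d), mob m * F (m : ZMod q)‖ ≤ 1 * (q * M) :=
        mul_le_mul h7 key (norm_nonneg _) zero_le_one
    _ = q * M := one_mul _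

lemma exists_large (N : ℕ) : ∃ x₀ : ℕ, 9 ≤ x₀ ∧ ∀ x : ℕ, x₀ ≤ x → Real.log x ^ N ≤ x := by
  have h := (Real.isLittleO_pow_log_id_atTop (n := N)).bound (zero_lt_one)
  obtain ⟨a, ha⟩ := Filter.eventually_atTop.1 h
  refine ⟨max 9 ⌈a⌉₊, le_max_left _ _, fun x hx => ?_⟩
  have hxa : a ≤ (x : ℝ) := (Nat.le_ceil a).trans (by exact_mod_cast (le_max_right _ _).trans hx)
  have h1 := ha x hxa
  simp only [id, one_mul, Real.norm_eq_abs] at h1
  have h2 : |(x : ℝ)| = x := abs_of_nonneg (Nat.cast_nonneg x)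
  rw [h2] at h1
  exact (le_abs_self _).trans h1

lemma norm_mob_mul_le {q : ℕ} (χ : DirichletCharacter ℂ q) (n : ℕ) :
    ‖mob n * χ (n : ZMod q)‖ ≤ 1 := by
  rw [norm_mul]
  have h7 : ‖mob n‖ ≤ 1 := by
    unfold mob
    rw [Complex.norm_intCast]
    exact_mod_cast ArithmeticFunction.abs_moebius_le_one
  calc ‖mob n‖ * ‖χ (n : ZMod q)‖ ≤ 1 * 1 :=
        mul_le_mul h7 (DirichletCharacter.norm_le_one χ _) (norm_nonneg _) zero_le_one
    _ = 1 := one_mul 1

/-- the bound for the Riesz mean -/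
lemma riesz_bound {C1 C2 : ℝ} {K B : ℕ}
    (h1 : ∀ (q : ℕ) [NeZero q] (χ : DirichletCharacter ℂ q) (V : ℝ), 1 ≤ V →
      (χ ^ 2 = 1 → χ ≠ 1 → ∀ N : ℕ, ‖∑ n ∈ range N, χ (n : ZMod q)‖ ≤ V) → ∀ u : ℕ, 3 ≤ u →
      ‖∑ n ∈ range u, ((u : ℂ) - n) * mob n * χ (n : ZMod q)‖ ≤
        C1 * V ^ (16 * (B + 1) + 1) * (1 + Real.log q) ^ K * (u : ℝ) ^ 2 /
          Real.log u ^ (16 * (B + 1)))
    (h2 : ∀ (q : ℕ) [NeZero q] (ψ : DirichletCharacter ℂ q), ψ ≠ 1 →
      ∀ N : ℕ, ‖∑ n ∈ range N, ψ (n : ZMod q)‖ ≤ C2 * (q : ℝ) ^ ((11 : ℝ) / 20))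
    (q : ℕ) [NeZero q] (χ : DirichletCharacter ℂ q) {L x : ℝ} (hL : 1 ≤ L)
    (hq : (q : ℝ) ≤ L ^ (5 / 4 : ℝ)) (v : ℕ) (hv : 3 ≤ v) (hvx : (v : ℝ) ≤ 4 * x)
    (hvL : L / 2 ≤ Real.log v) :
    ‖∑ n ∈ range v, ((v : ℂ) - n) * (mob n * χ (n : ZMod q))‖ ≤
      (|C1| * (1 + |C2|) ^ (16 * (B + 1) + 1) * (3 * (K.factorial : ℝ)) * 16 *
        2 ^ (16 * (B + 1))) * x ^ 2 / L ^ (5 * B + 2) := by
  have hL0 : 0 < L := by linarith
  have hq1 : (1 : ℝ) ≤ q := by exact_mod_cast Nat.pos_of_ne_zero (NeZero.ne q)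
  set V : ℝ := max 1 (|C2| * (q : ℝ) ^ ((11 : ℝ) / 20)) with hV
  have hqV : (q : ℝ) ^ ((11 : ℝ) / 20) ≤ L ^ ((11 : ℝ) / 16) := by
    calc (q : ℝ) ^ ((11 : ℝ) / 20) ≤ (L ^ (5 / 4 : ℝ)) ^ ((11 : ℝ) / 20) :=
          Real.rpow_le_rpow (by linarith) hq (by norm_num)
      _ = L ^ ((11 : ℝ) / 16) := by
          rw [← Real.rpow_mul hL0.le]
          norm_num
  have hW1 : 1 ≤ L ^ ((11 : ℝ) / 16) := Real.one_le_rpow hL (by norm_num)
  have hVle : V ≤ (1 + |C2|) * L ^ ((11 : ℝ) / 16) := by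
    apply max_le
    · nlinarith [abs_nonneg C2]
    · have := mul_le_mul_of_nonneg_left hqV (abs_nonneg C2)
      nlinarith
  have hV0 : 0 ≤ V := zero_le_one.trans (le_max_left _ _)
  have hW16 : (L ^ ((11 : ℝ) / 16)) ^ 16 = L ^ 11 := by
    rw [← Real.rpow_natCast, ← Real.rpow_mul hL0.le]
    norm_num
  have hW : (L ^ ((11 : ℝ) / 16)) ^ (16 * (B + 1) + 1) ≤ L ^ (11 * (B + 1) + 1) := by
    rw [pow_succ, pow_mul, hW16, ← pow_mul, pow_succ]
    refine mul_le_mul_of_nonneg_left ?_ (by positivity)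
    calc L ^ ((11 : ℝ) / 16) ≤ L ^ (1 : ℝ) := Real.rpow_le_rpow_of_exponent_le hL (by norm_num)
      _ = L := Real.rpow_one L
  have hVpow : V ^ (16 * (B + 1) + 1) ≤ (1 + |C2|) ^ (16 * (B + 1) + 1) *
      L ^ (11 * (B + 1) + 1) := by
    calc V ^ (16 * (B + 1) + 1) ≤ ((1 + |C2|) * L ^ ((11 : ℝ) / 16)) ^ (16 * (B + 1) + 1) :=
          pow_le_pow_left₀ hV0 hVle _
      _ = (1 + |C2|) ^ (16 * (B + 1) + 1) * (L ^ ((11 : ℝ) / 16)) ^ (16 * (B + 1) + 1) :=
          mul_pow _ _ _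
      _ ≤ _ := mul_le_mul_of_nonneg_left hW (by positivity)
  have hqL : (q : ℝ) ≤ L ^ 2 := by
    refine hq.trans ?_
    rw [← Real.rpow_natCast]
    exact Real.rpow_le_rpow_of_exponent_le hL (by norm_num)
  have hlogq : 0 ≤ Real.log q := Real.log_nonneg hq1
  have hK : (1 + Real.log q) ^ K ≤ 3 * (K.factorial : ℝ) * L ^ 2 := by
    have h3 := Real.pow_div_factorial_le_exp (1 + Real.log q) (by linarith) K
    have h4 : (0 : ℝ) < K.factorial := by exact_mod_cast Nat.factorial_pos K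
    rw [div_le_iff₀ h4] at h3
    have h5 : Real.exp (1 + Real.log q) ≤ 3 * L ^ 2 := by
      rw [Real.exp_add, Real.exp_log (by linarith)]
      have := Real.exp_one_lt_d9
      have h6 : (0 : ℝ) < Real.exp 1 := Real.exp_pos 1
      nlinarith
    calc (1 + Real.log q) ^ K ≤ Real.exp (1 + Real.log q) * K.factorial := h3
      _ ≤ 3 * L ^ 2 * K.factorial := mul_le_mul_of_nonneg_right h5 h4.le
      _ = _ := by ring
  have hR := h1 q χ V (le_max_left _ _) (fun _ hχ N => by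
    refine (h2 q χ hχ N).trans ?_
    refine le_trans ?_ (le_max_right _ _)
    exact mul_le_mul_of_nonneg_right (le_abs_self C2) (by positivity)) v hv
  have e1 : ∑ n ∈ range v, ((v : ℂ) - n) * (mob n * χ (n : ZMod q)) =
      ∑ n ∈ range v, ((v : ℂ) - n) * mob n * χ (n : ZMod q) :=
    sum_congr rfl fun n _ => by ring
  rw [e1]
  refine hR.trans ?_
  have hlogv : 0 < L / 2 := by linarith
  have hden : (L / 2) ^ (16 * (B + 1)) ≤ Real.log v ^ (16 * (B + 1)) :=
    pow_le_pow_left₀ hlogv.le hvL _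
  have hnum : C1 * V ^ (16 * (B + 1) + 1) * (1 + Real.log q) ^ K * (v : ℝ) ^ 2 ≤
      |C1| * ((1 + |C2|) ^ (16 * (B + 1) + 1) * L ^ (11 * (B + 1) + 1)) *
        (3 * (K.factorial : ℝ) * L ^ 2) * (4 * x) ^ 2 := by
    have a1 : C1 * V ^ (16 * (B + 1) + 1) ≤
        |C1| * ((1 + |C2|) ^ (16 * (B + 1) + 1) * L ^ (11 * (B + 1) + 1)) :=
      mul_le_mul (le_abs_self _) hVpow (by positivity) (abs_nonneg _)
    have a2 : (v : ℝ) ^ 2 ≤ (4 * x) ^ 2 := pow_le_pow_left₀ (Nat.cast_nonneg _) hvx 2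
    have a3 : 0 ≤ (1 + Real.log q) ^ K := by positivity
    have a4 : C1 * V ^ (16 * (B + 1) + 1) * (1 + Real.log q) ^ K ≤
        |C1| * ((1 + |C2|) ^ (16 * (B + 1) + 1) * L ^ (11 * (B + 1) + 1)) *
          (3 * (K.factorial : ℝ) * L ^ 2) :=
      mul_le_mul a1 hK a3 (by positivity)
    exact mul_le_mul a4 a2 (by positivity) (by positivity)
  calc C1 * V ^ (16 * (B + 1) + 1) * (1 + Real.log q) ^ K * (v : ℝ) ^ 2 /
        Real.log v ^ (16 * (B + 1))
      ≤ (|C1| * ((1 + |C2|) ^ (16 * (B + 1) + 1) * L ^ (11 * (B + 1) + 1)) *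
        (3 * (K.factorial : ℝ) * L ^ 2) * (4 * x) ^ 2) / Real.log v ^ (16 * (B + 1)) :=
        div_le_div_of_nonneg_right hnum (by positivity)
    _ ≤ (|C1| * ((1 + |C2|) ^ (16 * (B + 1) + 1) * L ^ (11 * (B + 1) + 1)) *
        (3 * (K.factorial : ℝ) * L ^ 2) * (4 * x) ^ 2) / (L / 2) ^ (16 * (B + 1)) :=
        div_le_div_of_nonneg_left (by positivity) (by positivity) hden
    _ = _ := by
        have e2 : L ^ (16 * (B + 1)) = L ^ (11 * (B + 1) + 1) * L ^ 2 * L ^ (5 * B + 2) := by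
          rw [← pow_add, ← pow_add]
          congr 1
          ring
        rw [div_pow, e2]
        field_simp
        ring

/-- the character sums -/
lemma char_bound (hC : ChiRiesz) (hPV : PV) (B : ℕ) : ∃ (C : ℝ) (x₀ : ℕ), 0 ≤ C ∧ 9 ≤ x₀ ∧
    ∀ x : ℕ, x₀ ≤ x → ∀ (q : ℕ) [NeZero q], (q : ℝ) ≤ (Real.log x) ^ (5 / 4 : ℝ) →
    ∀ d : ℕ, 0 < d → d ≤ q → ∀ χ : DirichletCharacter ℂ q,
    ‖∑ m ∈ Icc 1 (x / d), mob m * χ (m : ZMod q)‖ ≤ C * (x : ℝ) / Real.log x ^ B := by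
  obtain ⟨C1, K, h1⟩ := hC (16 * (B + 1))
  obtain ⟨C2, h2⟩ := hPV
  obtain ⟨x₀, hx₀, hlarge⟩ := exists_large (2 * B + 4)
  set C4 : ℝ := |C1| * (1 + |C2|) ^ (16 * (B + 1) + 1) * (3 * (K.factorial : ℝ)) * 16 *
        2 ^ (16 * (B + 1)) with hC4
  have hC40 : 0 ≤ C4 := by positivity
  refine ⟨2 * C4 + 2, x₀, by positivity, hx₀, ?_⟩
  intro x hx q _ hq d hd hdq χ
  set L : ℝ := Real.log x with hLdef
  have hx9 : (9 : ℝ) ≤ x := by exact_mod_cast hx₀.trans hx
  have hx0 : (0 : ℝ) < x := by linarith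
  have hL : 1 ≤ L := by
    rw [hLdef, Real.le_log_iff_exp_le hx0]
    have := Real.exp_one_lt_d9
    linarith
  have hL0 : 0 < L := by linarith
  have hLx : L ^ (2 * B + 4) ≤ x := hlarge x hx
  have hsq : (L ^ (B + 2)) ^ 2 ≤ x := by
    rw [← pow_mul]
    have : (B + 2) * 2 = 2 * B + 4 := by ring
    rw [this]
    exact hLx
  have hs : L ^ (B + 2) ≤ √x := Real.le_sqrt_of_sq_le hsq
  have hs3 : 3 ≤ √(x : ℝ) := by
    apply Real.le_sqrt_of_sq_le
    norm_num
    exact_mod_cast hx₀.trans hx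
  have hss : √(x : ℝ) * √x = x := Real.mul_self_sqrt hx0.le
  have hL2 : L ^ 2 ≤ √x := (pow_le_pow_right₀ hL (by omega)).trans hs
  have hLB : L ^ B ≤ √x := (pow_le_pow_right₀ hL (by omega)).trans hs
  have hqL : (q : ℝ) ≤ L ^ 2 := by
    refine hq.trans ?_
    rw [← Real.rpow_natCast]
    exact Real.rpow_le_rpow_of_exponent_le hL (by norm_num)
  have hd0 : (0 : ℝ) < d := by exact_mod_cast hd
  have hdL : (d : ℝ) ≤ √x := (show (d : ℝ) ≤ q by exact_mod_cast hdq).trans (hqL.trans hL2)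
  set u : ℕ := x / d + 1 with hu
  have hux : √(x : ℝ) ≤ u := by
    have h3 : (x : ℝ) / d < u := by
      have h31 : x < d * (x / d + 1) := Nat.lt_mul_div_succ x hd
      rw [div_lt_iff₀ hd0, mul_comm]
      exact_mod_cast h31
    refine le_trans ?_ h3.le
    rw [le_div_iff₀ hd0]
    calc √(x : ℝ) * d ≤ √x * √x := by gcongr
      _ = x := hss
  have hu3 : 3 ≤ u := by exact_mod_cast hs3.trans hux
  have hu2 : (u : ℝ) ≤ 2 * x := by
    have : x / d ≤ x := Nat.div_le_self x d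
    have h4 : ((x / d : ℕ) : ℝ) ≤ x := by exact_mod_cast this
    rw [hu]
    push_cast
    linarith
  have hlogu : L / 2 ≤ Real.log u := by
    have h5 : Real.log (√(x : ℝ)) = L / 2 := by
      rw [Real.log_sqrt hx0.le]
    rw [← h5]
    exact Real.log_le_log (by linarith) hux
  set h : ℕ := ⌈(x : ℝ) / L ^ B⌉₊ with hh
  have hLB0 : 0 < L ^ B := by positivity
  have hxB : 1 ≤ (x : ℝ) / L ^ B := by
    rw [le_div_iff₀ hLB0, one_mul]
    calc L ^ B ≤ √x := hLB
      _ ≤ √x * √x := by nlinarith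
      _ = x := hss
  have hh1 : (x : ℝ) / L ^ B ≤ h := Nat.le_ceil _
  have hh2 : (h : ℝ) ≤ 2 * (x / L ^ B) := by
    have := Nat.ceil_lt_add_one (zero_le_one.trans hxB)
    rw [hh]
    linarith
  have hhpos : 1 ≤ h := by
    have : (1 : ℝ) ≤ h := hxB.trans hh1
    exact_mod_cast this
  have hhx : (h : ℝ) ≤ 2 * x := by
    have : (x : ℝ) / L ^ B ≤ x := div_le_self hx0.le (one_le_pow₀ hL)
    linarith
  have e1 : ∑ m ∈ Icc 1 (x / d), mob m * χ (m : ZMod q) =
      ∑ n ∈ range u, mob n * χ (n : ZMod q) := by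
    have e0 : mob 0 = 0 := by simp [mob]
    have e00 : range u = insert 0 (Icc 1 (x / d)) := by
      ext n
      simp only [mem_range, mem_insert, mem_Icc]
      omega
    rw [e00, sum_insert (by simp), e0, zero_mul, zero_add]
  rw [e1]
  refine (unsmooth _ (norm_mob_mul_le χ) u h hhpos).trans ?_
  have r1 := riesz_bound h1 h2 q χ (x := (x : ℝ)) hL hq u hu3 (by linarith) hlogu
  have r2 := riesz_bound h1 h2 q χ (x := (x : ℝ)) hL hq (u + h) (by omega) (by push_cast; linarith)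
    (hlogu.trans (Real.log_le_log (by linarith) (by push_cast; linarith)))
  rw [← hC4] at r1 r2
  have hh0 : (0 : ℝ) < h := by exact_mod_cast hhpos
  set T : ℝ := (x : ℝ) / L ^ B with hT
  have hT0 : 0 < T := by linarith
  have hT2 : (x : ℝ) ^ 2 / L ^ (5 * B + 2) ≤ T ^ 2 := by
    rw [hT, div_pow, ← pow_mul]
    exact div_le_div_of_nonneg_left (by positivity) (by positivity)
      (pow_le_pow_right₀ hL (by omega))
  have r3 : C4 * (x : ℝ) ^ 2 / L ^ (5 * B + 2) ≤ C4 * T ^ 2 := by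
    rw [mul_div_assoc]
    exact mul_le_mul_of_nonneg_left hT2 hC40
  have r4 : (‖∑ n ∈ range (u + h), (((u + h : ℕ) : ℂ) - n) * (mob n * χ (n : ZMod q))‖ +
      ‖∑ n ∈ range u, ((u : ℂ) - n) * (mob n * χ (n : ZMod q))‖) / h ≤ 2 * C4 * T := by
    rw [div_le_iff₀ hh0]
    have r5 : C4 * T * T ≤ C4 * T * h := mul_le_mul_of_nonneg_left hh1 (by positivity)
    have r6 : C4 * T ^ 2 = C4 * T * T := by ring
    linarith
  calc _ ≤ 2 * C4 * T + 2 * T := add_le_add r4 hh2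
    _ = (2 * C4 + 2) * (x : ℝ) / L ^ B := by rw [hT]; ring

/-- Moebius in residue classes -/
theorem swLite (hC : ChiRiesz) (hPV : PV) : MobQ.SWLite := by
  intro A
  obtain ⟨C, x₀, hC0, hx₀, h⟩ := char_bound hC hPV (A + 2)
  refine ⟨C + Real.log x₀ ^ A, fun x q b hx hq hqL => ?_⟩
  have hx3 : (3 : ℝ) ≤ x := by exact_mod_cast hx
  have hx0 : (0 : ℝ) < x := by linarith
  set L : ℝ := Real.log x with hLdef
  have hL : 1 ≤ L := by
    rw [hLdef, Real.le_log_iff_exp_le hx0]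
    have := Real.exp_one_lt_d9
    linarith
  have hLA : 0 < L ^ A := by positivity
  have hx₀' : (0 : ℝ) ≤ Real.log x₀ := Real.log_natCast_nonneg _
  rcases lt_or_ge x x₀ with hlt | hge
  · have e1 : |∑ n ∈ (Icc 1 x).filter (fun n => n % q = b % q), MobQ.mu n| ≤ x := by
      refine (abs_sum_le_sum_abs _ _).trans ?_
      have e2 : ∀ n ∈ (Icc 1 x).filter (fun n => n % q = b % q), |MobQ.mu n| ≤ 1 := by
        intro n _
        unfold MobQ.mu
        exact_mod_cast ArithmeticFunction.abs_moebius_le_one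
      refine (sum_le_sum e2).trans ?_
      rw [sum_const, nsmul_eq_mul, mul_one]
      have := card_filter_le (Icc 1 x) (fun n => n % q = b % q)
      rw [Nat.card_Icc, Nat.add_sub_cancel] at this
      exact_mod_cast this
    refine e1.trans ?_
    rw [le_div_iff₀ hLA]
    have e3 : L ^ A ≤ Real.log x₀ ^ A := by
      refine pow_le_pow_left₀ (by linarith) ?_ A
      exact Real.log_le_log hx0 (by exact_mod_cast hlt.le)
    nlinarith [pow_nonneg hx₀' A]
  · have : NeZero q := ⟨by omega⟩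
    have hd : 0 < Nat.gcd b q := Nat.gcd_pos_of_pos_right b (by omega)
    have hdq : Nat.gcd b q ≤ q := Nat.gcd_le_right b (by omega)
    have e1 := reduce x q b _ (fun χ => h x hge q hqL (Nat.gcd b q) hd hdq χ)
    refine e1.trans ?_
    have hqL2 : (q : ℝ) ≤ L ^ 2 := by
      refine hqL.trans ?_
      rw [← Real.rpow_natCast]
      exact Real.rpow_le_rpow_of_exponent_le hL (by norm_num)
    have e2 : (q : ℝ) * (C * x / L ^ (A + 2)) ≤ C * x / L ^ A := by
      have : C * x / L ^ A = L ^ 2 * (C * x / L ^ (A + 2)) := by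
        rw [pow_add]
        field_simp
      rw [this]
      exact mul_le_mul_of_nonneg_right hqL2 (by positivity)
    refine e2.trans ?_
    refine div_le_div_of_nonneg_right ?_ hLA.le
    exact mul_le_mul_of_nonneg_right (by linarith [pow_nonneg hx₀' A]) hx0.le

end Pool.Agent.Helper95.MD
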